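import Mathlib
import Pool.Agent.H7.Comp.PT

/-!
# The classes P and NP
-/

set_option autoImplicit false

namespace Pool.Agent.H13.LSP

open Pool.Agent.H7.Comp

/-- A language, i.e. a set of bit strings, is in the class `P`. -/
def InP (L : Set (List Bool)) : Prop :=
  ∃ f : List Bool → Bool, PT f ∧ ∀ x, f x = true ↔ x ∈ L

/-- A language is in the class `NP`: membership is witnessed by certificates of polynomially
bounded length which can be checked in polynomial time. -/
def InNP (L : Set (List Bool)) : Prop :=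
  ∃ (V : List Bool × List Bool → Bool) (c : ℕ), PT V ∧
    ∀ x, x ∈ L ↔ ∃ w : List Bool, w.length ≤ (x.length + 2) ^ c ∧ V (x, w) = true

lemma InP.inNP {L : Set (List Bool)} (h : InP L) : InNP L := by
  obtain ⟨f, hf, hL⟩ := h
  refine ⟨fun p => f p.1, 0, hf.comp PT.fst, fun x => ?_⟩
  rw [← hL x]
  exact ⟨fun h => ⟨[], by simp, h⟩, fun ⟨_, _, h⟩ => h⟩

end Pool.Agent.H13.LSP
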