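import Mathlib
import Pool.Agent.H7.Comp.PT
import Pool.Agent.H99.BinDet.EncInt
import Pool.Agent.H13.LSP.Classes

/-!
# Largest simplices in parallelotopes: definitions
-/

set_option autoImplicit false

namespace Pool.Agent.H13.LSP

open Matrix Pool.Agent.H7.Comp Pool.Agent.H99.BinDet

/-! ### Simplices and parallelotopes -/

/-- For points `p 0, ..., p j` of `ℝ^n`: the Gram determinant of the edge vectors `p i - p 0`.
It equals `(j!)^2 * (vol_j (conv p))^2`. -/
def measureSq {n j : ℕ} (p : Fin (j + 1) → Fin n → ℝ) : ℝ :=
  (Matrix.of fun i k : Fin j => (p i.succ - p 0) ⬝ᵥ (p k.succ - p 0)).det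

/-- The unit cube `[0,1]^n`. -/
def cube (n : ℕ) : Set (Fin n → ℝ) := {t | ∀ i, 0 ≤ t i ∧ t i ≤ 1}

/-- `P` is an `n`-dimensional parallelotope in `ℝ^n`, i.e. the image of the cube `[0,1]^n` under a
bijective affine map `t ↦ c + M t`. -/
def IsParallelotope {n : ℕ} (P : Set (Fin n → ℝ)) : Prop :=
  ∃ (M : Matrix (Fin n) (Fin n) ℝ) (c : Fin n → ℝ), M.det ≠ 0 ∧
    P = (fun t => c + M *ᵥ t) '' cube n

/-- `P` contains a `j`-simplex `S` (the convex hull of `j + 1` affinely independent points) with
`(j!)^2 * vol_j(S)^2 ≥ lam`. -/
def HasSimplex {n : ℕ} (P : Set (Fin n → ℝ)) (j : ℕ) (lam : ℝ) : Prop :=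
  ∃ p : Fin (j + 1) → Fin n → ℝ, AffineIndependent ℝ p ∧ convexHull ℝ (Set.range p) ⊆ P ∧
    lam ≤ measureSq p

/-- The points `p 0, ..., p j` are the vertices of a largest `j`-simplex in `P`. -/
def IsLargest {n : ℕ} (P : Set (Fin n → ℝ)) (j : ℕ) (p : Fin (j + 1) → Fin n → ℝ) : Prop :=
  AffineIndependent ℝ p ∧ convexHull ℝ (Set.range p) ⊆ P ∧
    ∀ q : Fin (j + 1) → Fin n → ℝ, AffineIndependent ℝ q → convexHull ℝ (Set.range q) ⊆ P →
      measureSq q ≤ measureSq p

/-! ### The decision version of `Π_γ` -/

/-- An instance: the dimension `n`, the list of the inequalities `a · x ≤ b` (each given by the list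
of the coefficients `a` and the right-hand side `b`), and the threshold `lam`. -/
abbrev Inst := ℕ × List (List ℚ × ℚ) × ℚ

/-- The dimension of an instance. -/
def dim (I : Inst) : ℕ := I.1

/-- The inequalities of an instance. -/
def rows (I : Inst) : List (List ℚ × ℚ) := I.2.1

/-- The threshold of an instance. -/
def lam (I : Inst) : ℚ := I.2.2

/-- The polytope `{x ∈ ℝ^n : a · x ≤ b for all inequalities (a, b) of the instance}`. -/
def poly (I : Inst) : Set (Fin (dim I) → ℝ) :=
  {x | ∀ r ∈ rows I, ∑ j : Fin (dim I), ((r.1.getD j 0 : ℚ) : ℝ) * x j ≤ ((r.2 : ℚ) : ℝ)}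

/-- The admissible instances: `n ≥ 1`, every inequality has `n` coefficients, the polytope is an
`n`-dimensional parallelotope, and the threshold is positive. -/
def Valid (I : Inst) : Prop :=
  1 ≤ dim I ∧ (∀ r ∈ rows I, r.1.length = dim I) ∧ IsParallelotope (poly I) ∧ 0 < lam I

/-- The yes-instances of the decision version of `Π_γ`. -/
def Yes (γ : ℕ → ℕ) (I : Inst) : Prop := HasSimplex (poly I) (γ (dim I)) ((lam I : ℚ) : ℝ)

/-- `D` solves the decision version of `Π_γ`: it answers correctly for all admissible instances. -/
def Decides (γ : ℕ → ℕ) (D : Inst → Bool) : Prop :=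
  ∀ I, Valid I → (D I = true ↔ Yes γ I)

/-! ### The search problem `Π_γ` -/

/-- An instance of the search problem: the dimension and the list of the inequalities. -/
abbrev SInst := ℕ × List (List ℚ × ℚ)

/-- The same with threshold `1`. -/
def toInst (q : SInst) : Inst := (q.1, q.2, 1)

/-- An answer: a common denominator and, for every vertex, the list of the numerators of its
coordinates. -/
abbrev Ans := ℤ × List (List ℤ)

/-- The points described by an answer. -/
noncomputable def vertices {n j : ℕ} (A : Ans) : Fin (j + 1) → Fin n → ℝ :=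
  fun i l => (((A.2.getD i []).getD l 0 : ℤ) : ℝ) / ((A.1 : ℤ) : ℝ)

/-- `A` is a correct answer for the search problem `Π_γ` and the instance `q`: it describes the
vertices of a largest `γ(n)`-simplex in the parallelotope. -/
def IsAnswer (γ : ℕ → ℕ) (q : SInst) (A : Ans) : Prop :=
  0 < A.1 ∧ A.2.length = γ q.1 + 1 ∧ (∀ v ∈ A.2, v.length = q.1) ∧
    IsLargest (poly (toInst q)) (γ q.1) (vertices A)

/-- `S` solves the search problem `Π_γ`, with answers of polynomially bounded size. -/
def Solves (γ : ℕ → ℕ) (S : SInst → Ans) : Prop :=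
  (∀ q, Valid (toInst q) → IsAnswer γ q (S q)) ∧
    ∃ c : ℕ, ∀ q, (enc (S q)).size ≤ ((enc q).size + 2) ^ c

/-! ### Oracle programs and the class `P/poly` -/

/-- While-programs over binary trees (see `Prog`) with one more instruction, a question to an
oracle. -/
inductive OProg : Type
  /-- do nothing -/
  | id : OProg
  /-- return the atom `nil` -/
  | nil : OProg
  /-- left component -/
  | hd : OProg
  /-- right component -/
  | tl : OProg
  /-- run both programs on the input and form the node of the two results -/
  | pair : OProg → OProg → OProg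
  /-- run the second program on the result of the first one -/
  | seq : OProg → OProg → OProg
  /-- `cond c p q`: if the result of `c` is not `nil` then run `p` else run `q` -/
  | cond : OProg → OProg → OProg → OProg
  /-- `loop c p`: while the result of `c` is not `nil`, run `p` -/
  | loop : OProg → OProg → OProg
  /-- ask the oracle: the input is a question, the output is the answer -/
  | ask : OProg

/-- `ORun S p x y t`: with the oracle `S`, started on input `x`, the program `p` terminates with
output `y` after `t` units of time.  A question costs its size plus the size of the answer. -/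
inductive ORun {Q A : Type} [Enc Q] [Enc A] (S : Q → A) : OProg → Tr → Tr → ℕ → Prop
  | id (x : Tr) : ORun S .id x x 1
  | nil (x : Tr) : ORun S .nil x .nil 1
  | hd_nil : ORun S .hd .nil .nil 1
  | hd_node (a b : Tr) : ORun S .hd (.node a b) a 1
  | tl_nil : ORun S .tl .nil .nil 1
  | tl_node (a b : Tr) : ORun S .tl (.node a b) b 1
  | pair {p q : OProg} {x a b : Tr} {s t : ℕ} :
      ORun S p x a s → ORun S q x b t → ORun S (.pair p q) x (.node a b) (s + t + 1)
  | seq {p q : OProg} {x y z : Tr} {s t : ℕ} :
      ORun S p x y s → ORun S q y z t → ORun S (.seq p q) x z (s + t + 1)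
  | cond_true {c p q : OProg} {x a b y : Tr} {s t : ℕ} :
      ORun S c x (.node a b) s → ORun S p x y t → ORun S (.cond c p q) x y (s + t + 1)
  | cond_false {c p q : OProg} {x y : Tr} {s t : ℕ} :
      ORun S c x .nil s → ORun S q x y t → ORun S (.cond c p q) x y (s + t + 1)
  | loop_stop {c p : OProg} {x : Tr} {s : ℕ} :
      ORun S c x .nil s → ORun S (.loop c p) x x (s + 1)
  | loop_step {c p : OProg} {x a b y z : Tr} {s t u : ℕ} :
      ORun S c x (.node a b) s → ORun S p x y t → ORun S (.loop c p) y z u →
        ORun S (.loop c p) x z (s + t + u + 1)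
  | ask (q : Q) : ORun S .ask (enc q) (enc (S q)) ((enc q).size + (enc (S q)).size + 1)

/-- The language `L` is decided in polynomial time by a program with the oracle `S`. -/
def InPOracle {Q A : Type} [Enc Q] [Enc A] (S : Q → A) (L : Set (List Bool)) : Prop :=
  ∃ (p : OProg) (c : ℕ), ∀ x : List Bool, ∃ (b : Bool) (t : ℕ),
    t ≤ (x.length + 2) ^ c ∧ ORun S p (enc x) (enc b) t ∧ (b = true ↔ x ∈ L)

/-- The language `L` is in the class `P/poly`: there are advice strings `a n` of polynomially bounded
length and a program which decides `x ∈ L` in polynomial time, given `x` and the advice string for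
the length of `x`. -/
def InPpoly (L : Set (List Bool)) : Prop :=
  ∃ (a : ℕ → List Bool) (p : Prog) (c : ℕ), (∀ n, (a n).length ≤ (n + 2) ^ c) ∧
    ∀ x : List Bool, ∃ (b : Bool) (t : ℕ),
      t ≤ (x.length + 2) ^ c ∧ Run p (enc (x, a x.length)) (enc b) t ∧ (b = true ↔ x ∈ L)

/-! ### NP-hardness -/

/-- The decision version of `Π_γ` is NP-hard under many-one reductions: every language in `NP` can be
reduced to it in polynomial time.  The reduction maps bit strings to admissible instances, that is, to
an `n`-dimensional parallelotope given by linear inequalities with rational coefficients, together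
with a rational threshold. -/
def NPHard (γ : ℕ → ℕ) : Prop :=
  ∀ L : Set (List Bool), InNP L →
    ∃ f : List Bool → Inst, PT f ∧ (∀ x, Valid (f x)) ∧ ∀ x, x ∈ L ↔ Yes γ (f x)

/-- A problem is NP-hard under Turing reductions: with any oracle solving it, every language in `NP`
can be decided in polynomial time.  The problem is given by the set of the functions which solve
it. -/
def TuringHard {Q A : Type} [Enc Q] [Enc A] (solves : (Q → A) → Prop) : Prop :=
  ∀ S : Q → A, solves S → ∀ L : Set (List Bool), InNP L → InPOracle S L

end Pool.Agent.H13.LSP
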