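import Mathlib
import Pool.Agent.H13.LSP.Defs

/-!
# Simplices in parallelotopes: affine invariance
-/

set_option autoImplicit false

namespace Pool.Agent.H13.LSP

open Matrix

lemma HasSimplex.mono {n : ℕ} {P : Set (Fin n → ℝ)} {j : ℕ} {a b : ℝ} (hab : a ≤ b)
    (h : HasSimplex P j b) : HasSimplex P j a := by
  obtain ⟨p, h1, h2, h3⟩ := h
  exact ⟨p, h1, h2, hab.trans h3⟩

lemma convex_cube (n : ℕ) : Convex ℝ (cube n) := by
  have : cube n = Set.Icc (0 : Fin n → ℝ) 1 := by
    ext t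
    simp only [cube, Set.mem_ofPred_eq, Set.mem_Icc, Pi.le_def, Pi.zero_apply, Pi.one_apply]
    exact ⟨fun h => ⟨fun i => (h i).1, fun i => (h i).2⟩, fun h i => ⟨h.1 i, h.2 i⟩⟩
  rw [this]
  exact convex_Icc _ _

/-- The affine map `t ↦ c + M t`. -/
noncomputable def affMap {n : ℕ} (M : Matrix (Fin n) (Fin n) ℝ) (c : Fin n → ℝ) :
    (Fin n → ℝ) →ᵃ[ℝ] (Fin n → ℝ) :=
  AffineMap.mk' (fun t => c + M *ᵥ t) (Matrix.mulVecLin M) 0 (fun t => by
    simp [Matrix.mulVecLin, add_comm])

lemma affMap_apply {n : ℕ} (M : Matrix (Fin n) (Fin n) ℝ) (c t : Fin n → ℝ) :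
    affMap M c t = c + M *ᵥ t := rfl

lemma affMap_injective {n : ℕ} {M : Matrix (Fin n) (Fin n) ℝ} (hM : M.det ≠ 0) (c : Fin n → ℝ) :
    Function.Injective (affMap M c) := by
  intro s t h
  rw [affMap_apply, affMap_apply, add_right_inj] at h
  exact Matrix.mulVec_injective_of_isUnit ((Matrix.isUnit_iff_isUnit_det M).2 hM.isUnit) h

lemma measureSq_eq {n : ℕ} (p : Fin (n + 1) → Fin n → ℝ) :
    measureSq p = (Matrix.of fun (i : Fin n) (l : Fin n) => p i.succ l - p 0 l).det ^ 2 := by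
  have : (Matrix.of fun i k : Fin n => (p i.succ - p 0) ⬝ᵥ (p k.succ - p 0)) =
      (Matrix.of fun (i : Fin n) (l : Fin n) => p i.succ l - p 0 l) *
        (Matrix.of fun (i : Fin n) (l : Fin n) => p i.succ l - p 0 l)ᵀ := by
    ext i k
    simp [Matrix.mul_apply, dotProduct]
  rw [measureSq, this, Matrix.det_mul, Matrix.det_transpose, sq]

lemma measureSq_affMap {n : ℕ} (M : Matrix (Fin n) (Fin n) ℝ) (c : Fin n → ℝ)
    (p : Fin (n + 1) → Fin n → ℝ) :
    measureSq (fun i => affMap M c (p i)) = M.det ^ 2 * measureSq p := by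
  rw [measureSq_eq, measureSq_eq]
  have : (Matrix.of fun (i : Fin n) (l : Fin n) =>
      affMap M c (p i.succ) l - affMap M c (p 0) l) =
      (Matrix.of fun (i : Fin n) (l : Fin n) => p i.succ l - p 0 l) * Mᵀ := by
    ext i l
    simp only [affMap_apply, Matrix.of_apply, Matrix.mul_apply, Pi.add_apply, Matrix.mulVec,
      dotProduct, Matrix.transpose_apply]
    rw [add_sub_add_left_eq_sub, ← Finset.sum_sub_distrib]
    exact Finset.sum_congr rfl (fun k _ => by ring)
  rw [this, Matrix.det_mul, Matrix.det_transpose]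
  ring

/-- Affine invariance. -/
theorem hasSimplex_affMap {n : ℕ} {M : Matrix (Fin n) (Fin n) ℝ} (hM : M.det ≠ 0)
    (c : Fin n → ℝ) (lam : ℝ) :
    HasSimplex ((fun t => c + M *ᵥ t) '' cube n) n lam ↔ HasSimplex (cube n) n (lam / M.det ^ 2) := by
  have hpos : 0 < M.det ^ 2 := by positivity
  have himg : (fun t => c + M *ᵥ t) '' cube n = affMap M c '' cube n := rfl
  rw [himg]
  constructor
  · rintro ⟨p, h1, h2, h3⟩
    have hp : ∀ i, ∃ t ∈ cube n, affMap M c t = p i := fun i =>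
      h2 (subset_convexHull ℝ _ (Set.mem_range_self i))
    choose t ht htp using hp
    have htp' : (fun i => affMap M c (t i)) = p := funext htp
    refine ⟨t, ?_, ?_, ?_⟩
    · rw [← htp'] at h1
      exact h1.of_comp (affMap M c)
    · exact convexHull_min (by rintro _ ⟨i, rfl⟩; exact ht i) (convex_cube n)
    · rw [← htp', measureSq_affMap] at h3
      rw [div_le_iff₀ hpos, mul_comm]
      exact h3
  · rintro ⟨t, h1, h2, h3⟩
    refine ⟨fun i => affMap M c (t i), h1.map' _ (affMap_injective hM c), ?_, ?_⟩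
    · refine convexHull_min ?_ ((convex_cube n).affine_image _)
      rintro _ ⟨i, rfl⟩
      exact ⟨t i, h2 (subset_convexHull ℝ _ (Set.mem_range_self i)), rfl⟩
    · rw [measureSq_affMap]
      rw [div_le_iff₀ hpos, mul_comm] at h3
      exact h3

end Pool.Agent.H13.LSP
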