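import Mathlib
import Pool.Agent.H13.LSP.Geo

/-!
# The algorithm comparing instances, and its correctness (no complexity here)
-/

set_option autoImplicit false

namespace Pool.Agent.H13.LSP

open Matrix

/-! ### Clearing denominators -/

/-- number of inequalities -/
def nrows (I : Inst) : ℕ := (rows I).length

/-- the `r`-th inequality -/
def row (I : Inst) (r : ℕ) : List ℚ × ℚ := (rows I).getD r ([], 0)

/-- coefficients -/
def co (I : Inst) (r j : ℕ) : ℚ := (row I r).1.getD j 0

/-- right-hand sides -/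
def rhs (I : Inst) (r : ℕ) : ℚ := (row I r).2

/-- integer coefficients -/
def cA (I : Inst) (r j : ℕ) : ℤ :=
  (co I r j).num * (∏ l ∈ Finset.range (dim I), if l = j then 1 else ((co I r l).den : ℤ)) *
    ((rhs I r).den : ℤ)

/-- integer right-hand sides -/
def cB (I : Inst) (r : ℕ) : ℤ :=
  (rhs I r).num * ∏ l ∈ Finset.range (dim I), ((co I r l).den : ℤ)

/-- the common denominator -/
def cQ (I : Inst) (r : ℕ) : ℤ :=
  (∏ l ∈ Finset.range (dim I), ((co I r l).den : ℤ)) * ((rhs I r).den : ℤ)

lemma cQ_pos (I : Inst) (r : ℕ) : 0 < cQ I r := by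
  unfold cQ
  refine mul_pos (Finset.prod_pos (fun l _ => ?_)) ?_
  · exact_mod_cast (co I r l).den_pos
  · exact_mod_cast (rhs I r).den_pos

lemma cA_eq (I : Inst) (r j : ℕ) (hj : j < dim I) : (cA I r j : ℚ) = cQ I r * co I r j := by
  unfold cA cQ
  have h1 : (∏ l ∈ Finset.range (dim I), ((co I r l).den : ℤ)) =
      ((co I r j).den : ℤ) *
        ∏ l ∈ Finset.range (dim I), if l = j then 1 else ((co I r l).den : ℤ) := by
    rw [← Finset.mul_prod_erase _ _ (Finset.mem_range.2 hj)]
    congr 1
    rw [← Finset.mul_prod_erase _ (fun l => if l = j then 1 else ((co I r l).den : ℤ))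
      (Finset.mem_range.2 hj)]
    rw [if_pos rfl, one_mul]
    refine Finset.prod_congr rfl (fun l hl => ?_)
    rw [if_neg (Finset.ne_of_mem_erase hl)]
  rw [h1]
  have h4 : (co I r j) * ((co I r j).den : ℚ) = (co I r j).num := Rat.mul_den_eq_num _
  push_cast
  rw [← h4]
  ring

lemma cB_eq (I : Inst) (r : ℕ) : (cB I r : ℚ) = cQ I r * rhs I r := by
  unfold cB cQ
  push_cast
  have h4 : (rhs I r) * ((rhs I r).den : ℚ) = (rhs I r).num := Rat.mul_den_eq_num _
  rw [← h4]
  ring

/-- The polytope in terms of the integer data. -/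
lemma poly_eq (I : Inst) :
    poly I = {x : Fin (dim I) → ℝ | ∀ r : Fin (nrows I),
      (fun j : Fin (dim I) => (cA I r j : ℝ)) ⬝ᵥ x ≤ (cB I r : ℝ)} := by
  ext x
  have key : ∀ r : ℕ, ((fun j : Fin (dim I) => (cA I r j : ℝ)) ⬝ᵥ x ≤ (cB I r : ℝ) ↔
      ∑ j : Fin (dim I), ((co I r j : ℚ) : ℝ) * x j ≤ ((rhs I r : ℚ) : ℝ)) := by
    intro r
    have hq : (0 : ℝ) < (cQ I r : ℝ) := by exact_mod_cast cQ_pos I r
    have h1 : (fun j : Fin (dim I) => (cA I r j : ℝ)) ⬝ᵥ x =
        (cQ I r : ℝ) * ∑ j : Fin (dim I), ((co I r j : ℚ) : ℝ) * x j := by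
      rw [dotProduct, Finset.mul_sum]
      refine Finset.sum_congr rfl (fun j _ => ?_)
      have := cA_eq I r j j.2
      have h2 : (cA I r j : ℝ) = (cQ I r : ℝ) * ((co I r j : ℚ) : ℝ) := by exact_mod_cast this
      rw [h2]; ring
    have h3 : (cB I r : ℝ) = (cQ I r : ℝ) * ((rhs I r : ℚ) : ℝ) := by
      exact_mod_cast cB_eq I r
    rw [h1, h3]
    exact mul_le_mul_iff_right₀ hq
  constructor
  · intro hx r
    rw [key]
    have h4 : (rows I).getD (r : ℕ) ([], 0) ∈ rows I := by
      rw [List.getD_eq_getElem _ _ (show (r : ℕ) < (rows I).length from r.2)]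
      exact List.getElem_mem _
    exact hx _ h4
  · intro hx r hr
    obtain ⟨i, hi, rfl⟩ := List.mem_iff_getElem.1 hr
    have h5 := (key i).1 (hx ⟨i, hi⟩)
    have h6 : row I i = (rows I)[i] := List.getD_eq_getElem _ _ hi
    simp only [co, rhs, h6] at h5
    exact h5

/-! ### Candidates for facet vectors -/

/-- first, second inequality and coordinate of the `t`-th triple -/
def tr (I : Inst) (t : ℕ) : ℕ := t / (nrows I * dim I)
/-- second inequality -/
def ts (I : Inst) (t : ℕ) : ℕ := (t / dim I) % nrows I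
/-- coordinate -/
def tj (I : Inst) (t : ℕ) : ℕ := t % dim I

/-- number of triples -/
def ncand (I : Inst) : ℕ := nrows I * (nrows I * dim I)

/-- the triple consists of two antiparallel inequalities -/
def ok (I : Inst) (t : ℕ) : Prop :=
  0 < cA I (tr I t) (tj I t) ∧ cA I (ts I t) (tj I t) < 0 ∧
    ∀ l, l < dim I → cA I (tr I t) (tj I t) * cA I (ts I t) l =
      cA I (ts I t) (tj I t) * cA I (tr I t) l

instance (I : Inst) : DecidablePred (ok I) := fun t => by unfold ok; infer_instance

/-- integer facet vector -/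
def cu (I : Inst) (t l : ℕ) : ℤ := -cA I (ts I t) (tj I t) * cA I (tr I t) l

/-- its width -/
def cW (I : Inst) (t : ℕ) : ℤ :=
  -cA I (ts I t) (tj I t) * cB I (tr I t) + cA I (tr I t) (tj I t) * cB I (ts I t)

/-- integer Gram determinant of a list of candidates -/
def cG (I : Inst) (L : List ℕ) : ℤ :=
  (Matrix.of fun i k : Fin L.length =>
    ∑ l ∈ Finset.range (dim I), cu I (L.getD i 0) l * cu I (L.getD k 0) l).det

/-- The best candidate among the first `i` ones (or `ncand I` if there is none). -/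
def best (I : Inst) (L : List ℕ) : ℕ → ℕ
  | 0 => ncand I
  | i + 1 =>
    if ok I i then
      (if best I L i = ncand I then i
        else if cG I (best I L i :: L) * cW I i ^ 2 < cG I (i :: L) * cW I (best I L i) ^ 2 then i
          else best I L i)
    else best I L i

/-- The greedy choice of `k` candidates. -/
def greedy (I : Inst) : ℕ → List ℕ
  | 0 => []
  | k + 1 => best I (greedy I k) (ncand I) :: greedy I k

/-- numerator of the normalized threshold -/
def kNum (I : Inst) : ℤ := (lam I).num * cG I (greedy I (dim I))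

/-- denominator of the normalized threshold -/
def kDen (I : Inst) : ℤ :=
  ((lam I).den : ℤ) * ∏ i ∈ Finset.range (dim I), cW I ((greedy I (dim I)).getD i 0) ^ 2

/-- `I` has the smaller (or equal) normalized threshold. -/
def selLe (p : Inst × Inst) : Bool := decide (kNum p.1 * kDen p.2 ≤ kNum p.2 * kDen p.1)

end Pool.Agent.H13.LSP
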