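import Mathlib
import Pool.Agent.H13.LSP.Algo
import Pool.Agent.H33.GreedyGram

/-!
# Correctness of the comparison algorithm
-/

set_option autoImplicit false

namespace Pool.Agent.H13.LSP

open Matrix

/-- the real facet vector of a candidate -/
noncomputable def cv (I : Inst) (t : ℕ) : Fin (dim I) → ℝ := fun l => (cu I t l : ℝ) / (cW I t : ℝ)

lemma cG_eq (I : Inst) (L : List ℕ) (c : ℕ → ℕ) (hL : ∀ i, i < L.length →
    L.getD i 0 = c (L.length - 1 - i)) (hW : ∀ i, i < L.length → (cW I (c i) : ℝ) ≠ 0) :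
    (cG I L : ℝ) = gramDet L.length (fun i => cv I (c i)) *
      ∏ i ∈ Finset.range L.length, (cW I (c i) : ℝ) ^ 2 := by
  set k := L.length with hk
  have h1 : (cG I L : ℝ) = (Matrix.of fun i j : Fin k =>
      ((cW I (L.getD i 0) : ℝ)) * ((cW I (L.getD j 0) : ℝ) *
        (cv I (L.getD i 0) ⬝ᵥ cv I (L.getD j 0)))).det := by
    rw [cG, Int.cast_det]
    congr 1
    ext i j
    simp only [Matrix.map_apply, Matrix.of_apply]
    have hi : (cW I (L.getD i 0) : ℝ) ≠ 0 := by
      rw [hL i (by have := i.2; omega)]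
      exact hW _ (by have := i.2; omega)
    have hj : (cW I (L.getD j 0) : ℝ) ≠ 0 := by
      rw [hL j (by have := j.2; omega)]
      exact hW _ (by have := j.2; omega)
    push_cast
    rw [← Fin.sum_univ_eq_sum_range (fun l => (cu I (L.getD i 0) l : ℝ) *
      (cu I (L.getD j 0) l : ℝ)) (dim I)]
    simp only [cv, dotProduct]
    rw [← mul_assoc, Finset.mul_sum]
    refine Finset.sum_congr rfl (fun l _ => ?_)
    field_simp
  rw [h1]
  have h2 : (Matrix.of fun i j : Fin k =>
      ((cW I (L.getD i 0) : ℝ)) * ((cW I (L.getD j 0) : ℝ) *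
        (cv I (L.getD i 0) ⬝ᵥ cv I (L.getD j 0)))).det =
      (∏ i : Fin k, (cW I (L.getD i 0) : ℝ)) * ((∏ i : Fin k, (cW I (L.getD i 0) : ℝ)) *
        (Matrix.of fun i j : Fin k => cv I (L.getD i 0) ⬝ᵥ cv I (L.getD j 0)).det) := by
    rw [← Matrix.det_mul_row, ← Matrix.det_mul_column]
    rfl
  rw [h2]
  have h3 : (Matrix.of fun i j : Fin k => cv I (L.getD i 0) ⬝ᵥ cv I (L.getD j 0)).det =
      gramDet k (fun i => cv I (c i)) := by
    rw [gramDet, ← Matrix.det_submatrix_equiv_self (Fin.revPerm : Equiv.Perm (Fin k))]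
    congr 1
    ext i j
    simp only [Matrix.submatrix_apply, Matrix.of_apply, Fin.revPerm_apply]
    rw [hL _ (by have := (Fin.rev i).2; omega), hL _ (by have := (Fin.rev j).2; omega)]
    simp only [Fin.val_rev]
    have e1 : k - 1 - (k - (i + 1)) = i := by have := i.2; omega
    have e2 : k - 1 - (k - (j + 1)) = j := by have := j.2; omega
    rw [e1, e2]
  have h4 : (∏ i : Fin k, (cW I (L.getD i 0) : ℝ)) =
      ∏ i ∈ Finset.range k, (cW I (c i) : ℝ) := by
    rw [← Finset.prod_range_reflect, ← Fin.prod_univ_eq_prod_range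
      (fun i => (cW I (c (k - 1 - i)) : ℝ)) k]
    refine Finset.prod_congr rfl (fun i _ => ?_)
    rw [hL i (by have := i.2; omega)]
  rw [h3, h4, Finset.prod_pow]
  ring

/-- the key which is maximized -/
noncomputable def key (I : Inst) (L : List ℕ) (t : ℕ) : ℝ := (cG I (t :: L) : ℝ) / (cW I t : ℝ) ^ 2

lemma best_spec (I : Inst) (L : List ℕ) (hW : ∀ t, t < ncand I → ok I t → 0 < cW I t) :
    ∀ i, i ≤ ncand I → (best I L i = ncand I ∧ ∀ t, t < i → ¬ ok I t) ∨
      (best I L i < i ∧ ok I (best I L i) ∧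
        ∀ t, t < i → ok I t → key I L t ≤ key I L (best I L i)) := by
  intro i
  induction i with
  | zero =>
    intro _
    left
    exact ⟨rfl, fun t ht => absurd ht (Nat.not_lt_zero t)⟩
  | succ i ih =>
    intro hi
    have ih' := ih (by omega)
    have hcmp : ∀ s, s < ncand I → ok I s → ok I i →
        (cG I (s :: L) * cW I i ^ 2 < cG I (i :: L) * cW I s ^ 2 ↔
          key I L s < key I L i) := by
      intro s hs h1 h2
      have w1 : (0 : ℝ) < (cW I s : ℝ) := by exact_mod_cast hW s hs h1
      have w2 : (0 : ℝ) < (cW I i : ℝ) := by exact_mod_cast hW i (by omega) h2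
      rw [key, key, div_lt_div_iff₀ (by positivity) (by positivity)]
      exact_mod_cast Iff.rfl
    by_cases hok : ok I i
    · rcases ih' with ⟨h1, h2⟩ | ⟨h1, h2, h3⟩
      · right
        have hb : best I L (i + 1) = i := by
          rw [best, if_pos hok, if_pos h1]
        rw [hb]
        refine ⟨by omega, hok, fun t ht htok => ?_⟩
        rcases Nat.lt_succ_iff_lt_or_eq.mp ht with h | h
        · exact absurd htok (h2 t h)
        · rw [h]
      · have hne : ¬ best I L i = ncand I := by omega
        by_cases hlt : cG I (best I L i :: L) * cW I i ^ 2 < cG I (i :: L) * cW I (best I L i) ^ 2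
        · right
          have hb : best I L (i + 1) = i := by
            rw [best, if_pos hok, if_neg hne, if_pos hlt]
          rw [hb]
          refine ⟨by omega, hok, fun t ht htok => ?_⟩
          rcases Nat.lt_succ_iff_lt_or_eq.mp ht with h | h
          · exact (h3 t h htok).trans ((hcmp _ (by omega) h2 hok).1 hlt).le
          · rw [h]
        · right
          have hb : best I L (i + 1) = best I L i := by
            rw [best, if_pos hok, if_neg hne, if_neg hlt]
          rw [hb]
          refine ⟨by omega, h2, fun t ht htok => ?_⟩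
          rcases Nat.lt_succ_iff_lt_or_eq.mp ht with h | h
          · exact h3 t h htok
          · rw [h]
            have := mt (hcmp _ (by omega) h2 hok).2 hlt
            exact not_lt.1 this
    · have hb : best I L (i + 1) = best I L i := by
        rw [best, if_neg hok]
      rw [hb]
      rcases ih' with ⟨h1, h2⟩ | ⟨h1, h2, h3⟩
      · left
        refine ⟨h1, fun t ht => ?_⟩
        rcases Nat.lt_succ_iff_lt_or_eq.mp ht with h | h
        · exact h2 t h
        · rw [h]; exact hok
      · right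
        refine ⟨by omega, h2, fun t ht htok => ?_⟩
        rcases Nat.lt_succ_iff_lt_or_eq.mp ht with h | h
        · exact h3 t h htok
        · exact absurd (h ▸ htok) hok

lemma greedy_length (I : Inst) (k : ℕ) : (greedy I k).length = k := by
  induction k with
  | zero => rfl
  | succ k ih => rw [greedy, List.length_cons, ih]

/-- the candidate chosen in step `k` -/
def chosen (I : Inst) (k : ℕ) : ℕ := best I (greedy I k) (ncand I)

lemma greedy_getD (I : Inst) (k i : ℕ) (hi : i < k) :
    (greedy I k).getD i 0 = chosen I (k - 1 - i) := by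
  induction k generalizing i with
  | zero => omega
  | succ k ih =>
    rw [greedy]
    cases i with
    | zero => rfl
    | succ i =>
      rw [List.getD_cons_succ, ih i (by omega)]
      congr 1
      omega

/-- The index of a triple. -/
lemma triple_index (I : Inst) (r s j : ℕ) (hr : r < nrows I) (hs : s < nrows I) (hj : j < dim I) :
    ∃ t, t < ncand I ∧ tr I t = r ∧ ts I t = s ∧ tj I t = j := by
  refine ⟨r * (nrows I * dim I) + (s * dim I + j), ?_, ?_, ?_, ?_⟩
  · have h1 : s * dim I + j < nrows I * dim I := by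
      calc s * dim I + j < s * dim I + dim I := by omega
        _ = (s + 1) * dim I := by ring
        _ ≤ nrows I * dim I := Nat.mul_le_mul_right _ hs
    calc r * (nrows I * dim I) + (s * dim I + j) < r * (nrows I * dim I) + nrows I * dim I := by
          omega
      _ = (r + 1) * (nrows I * dim I) := by ring
      _ ≤ ncand I := Nat.mul_le_mul_right _ hr
  · have h1 : s * dim I + j < nrows I * dim I := by
      calc s * dim I + j < s * dim I + dim I := by omega
        _ = (s + 1) * dim I := by ring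
        _ ≤ nrows I * dim I := Nat.mul_le_mul_right _ hs
    rw [tr, mul_comm r, Nat.mul_add_div (by omega), Nat.div_eq_of_lt h1, add_zero]
  · rw [ts]
    have : (r * (nrows I * dim I) + (s * dim I + j)) = dim I * (nrows I * r + s) + j := by ring
    rw [this, Nat.mul_add_div (by omega), Nat.div_eq_of_lt hj, add_zero, Nat.mul_add_mod,
      Nat.mod_eq_of_lt hs]
  · rw [tj]
    have : (r * (nrows I * dim I) + (s * dim I + j)) = dim I * (nrows I * r + s) + j := by ring
    rw [this, Nat.mul_add_mod, Nat.mod_eq_of_lt hj]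

/-- the facet vectors of all candidates -/
def candV (I : Inst) : Set (Fin (dim I) → ℝ) := {v | ∃ t, t < ncand I ∧ ok I t ∧ v = cv I t}

/-- the chosen facet vectors -/
noncomputable def chosenV (I : Inst) (k : ℕ) : Fin (dim I) → ℝ := cv I (chosen I k)

lemma tr_lt (I : Inst) {t : ℕ} (hn : 1 ≤ dim I) (ht : t < ncand I) :
    tr I t < nrows I ∧ ts I t < nrows I ∧ tj I t < dim I := by
  have hpos : 0 < nrows I * dim I := by
    rcases Nat.eq_zero_or_pos (nrows I * dim I) with h | h
    · rw [ncand, h] at ht; omega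
    · exact h
  have hm : 0 < nrows I := Nat.pos_of_mul_pos_right hpos
  refine ⟨?_, Nat.mod_lt _ hm, Nat.mod_lt _ (by omega)⟩
  rw [tr, Nat.div_lt_iff_lt_mul hpos]
  exact ht

theorem cand_props (I : Inst) (M : Matrix (Fin (dim I)) (Fin (dim I)) ℝ) (c : Fin (dim I) → ℝ)
    (hn : 1 ≤ dim I) (hM : M.det ≠ 0) (hP : poly I = (fun t => c + M *ᵥ t) '' cube (dim I)) :
    (∀ t, t < ncand I → ok I t → 0 < cW I t ∧ ∃ y : Fin (dim I) → ℝ,
      ∑ k, |y k| ≤ 1 ∧ cv I t = ∑ k, y k • (M⁻¹ k)) ∧
    (∀ k, M⁻¹ k ∈ candV I ∨ -(M⁻¹ k) ∈ candV I) := by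
  obtain ⟨hf1, hf2⟩ := facets (fun (r : Fin (nrows I)) (j : Fin (dim I)) => (cA I r j : ℝ))
    (fun r => (cB I r : ℝ)) M c hM ((poly_eq I).symm.trans hP)
  refine ⟨?_, ?_⟩
  · intro t ht hok
    obtain ⟨h1, h2, h3⟩ := tr_lt I hn ht
    obtain ⟨o1, o2, o3⟩ := hok
    obtain ⟨w1, w2⟩ := hf1 ⟨tr I t, h1⟩ ⟨ts I t, h2⟩ ⟨tj I t, h3⟩ (by exact_mod_cast o1)
      (by exact_mod_cast o2) (fun l => by exact_mod_cast o3 l l.2)
    refine ⟨by unfold cW; exact_mod_cast w1, ?_⟩
    obtain ⟨y, hy1, hy2⟩ := w2
    refine ⟨y, hy1, ?_⟩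
    rw [← hy2]
    funext l
    simp only [cv, cu, cW]
    push_cast
    rfl
  · intro k
    obtain ⟨r, s, j, h1, h2, h3, h4⟩ := hf2 k
    obtain ⟨t, ht, e1, e2, e3⟩ := triple_index I r s j r.2 s.2 j.2
    have hok : ok I t := by
      unfold ok
      rw [e1, e2, e3]
      refine ⟨by exact_mod_cast h1, by exact_mod_cast h2, fun l hl => ?_⟩
      have := h3 ⟨l, hl⟩
      exact_mod_cast this
    have hv : cv I t = (fun l : Fin (dim I) => (-(cA I s j : ℝ) * cA I r l) /
        (-(cA I s j : ℝ) * cB I r + cA I r j * cB I s)) := by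
      funext l
      simp only [cv, cu, cW, e1, e2, e3]
      push_cast
      rfl
    rcases h4 with h4 | h4
    · left
      exact ⟨t, ht, hok, by rw [hv]; exact h4.symm⟩
    · right
      exact ⟨t, ht, hok, by rw [hv]; exact h4.symm⟩

theorem chosen_props (I : Inst) (M : Matrix (Fin (dim I)) (Fin (dim I)) ℝ) (c : Fin (dim I) → ℝ)
    (hn : 1 ≤ dim I) (hM : M.det ≠ 0) (hP : poly I = (fun t => c + M *ᵥ t) '' cube (dim I)) :
    (∀ k, chosen I k < ncand I ∧ ok I (chosen I k)) ∧
    (∀ k, k < dim I → ∀ v ∈ candV I, gramDet (k + 1) (Function.update (chosenV I) k v) ≤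
      gramDet (k + 1) (chosenV I)) ∧
    (cG I (greedy I (dim I)) : ℝ) = gramDet (dim I) (chosenV I) *
      ∏ i ∈ Finset.range (dim I), (cW I (chosen I i) : ℝ) ^ 2 := by
  obtain ⟨hokW, hV'⟩ := cand_props I M c hn hM hP
  -- there is a candidate
  obtain ⟨t0, ht0, hok0⟩ : ∃ t, t < ncand I ∧ ok I t := by
    rcases hV' ⟨0, hn⟩ with ⟨t, ht, hok, _⟩ | ⟨t, ht, hok, _⟩ <;> exact ⟨t, ht, hok⟩
  have hbest : ∀ k, chosen I k < ncand I ∧ ok I (chosen I k) ∧
      ∀ t, t < ncand I → ok I t → key I (greedy I k) t ≤ key I (greedy I k) (chosen I k) := by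
    intro k
    rcases best_spec I (greedy I k) (fun t ht h => (hokW t ht h).1) (ncand I) le_rfl with h | h
    · exact absurd hok0 (h.2 t0 ht0)
    · exact h
  have hWpos : ∀ k, (0 : ℝ) < (cW I (chosen I k) : ℝ) := fun k => by
    exact_mod_cast (hokW _ (hbest k).1 (hbest k).2.1).1
  -- Gram determinants of the lists
  have hlist : ∀ k t, t < ncand I → ok I t → (cG I (t :: greedy I k) : ℝ) =
      gramDet (k + 1) (Function.update (chosenV I) k (cv I t)) *
        ((∏ i ∈ Finset.range k, (cW I (chosen I i) : ℝ) ^ 2) * (cW I t : ℝ) ^ 2) := by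
    intro k t ht hok
    have hlen : (t :: greedy I k).length = k + 1 := by
      rw [List.length_cons, greedy_length]
    have h1 := cG_eq I (t :: greedy I k) (Function.update (chosen I) k t) ?_ ?_
    · rw [h1, hlen, Finset.prod_range_succ]
      congr 1
      · congr 1
        funext i
        by_cases hik : i = k
        · subst hik
          simp
        · simp [hik, chosenV]
      · congr 1
        · refine Finset.prod_congr rfl (fun i hi => ?_)
          have : i ≠ k := (Finset.mem_range.1 hi).ne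
          simp [this]
        · simp
    · intro i hi
      rw [hlen] at hi ⊢
      cases i with
      | zero => simp
      | succ i =>
        rw [List.getD_cons_succ, greedy_getD I k i (by omega)]
        have e : k + 1 - 1 - (i + 1) = k - 1 - i := by omega
        rw [e, Function.update_of_ne (by omega)]
    · intro i hi
      by_cases hik : i = k
      · subst hik
        simp only [Function.update_self]
        have := (hokW t ht hok).1
        exact_mod_cast this.ne'
      · rw [Function.update_of_ne hik]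
        exact (hWpos i).ne'
  refine ⟨fun k => ⟨(hbest k).1, (hbest k).2.1⟩, ?_, ?_⟩
  · rintro k _ v ⟨t, ht, hok, rfl⟩
    have h1 := (hbest k).2.2 t ht hok
    have hw1 : (0 : ℝ) < (cW I t : ℝ) := by exact_mod_cast (hokW t ht hok).1
    have hw2 := hWpos k
    have hprod : (0 : ℝ) < ∏ i ∈ Finset.range k, (cW I (chosen I i) : ℝ) ^ 2 :=
      Finset.prod_pos (fun i _ => by have := hWpos i; positivity)
    have hC : Function.update (chosenV I) k (cv I (chosen I k)) = chosenV I :=
      Function.update_eq_self k (chosenV I)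
    rw [key, key, hlist k t ht hok, hlist k _ (hbest k).1 (hbest k).2.1, hC,
      ← mul_assoc, ← mul_assoc, mul_div_assoc, mul_div_assoc, div_self (by positivity),
      div_self (by positivity), mul_one, mul_one] at h1
    exact le_of_mul_le_mul_right h1 hprod
  · have hn1 : dim I - 1 + 1 = dim I := by omega
    have hC : Function.update (chosenV I) (dim I - 1) (cv I (chosen I (dim I - 1))) = chosenV I :=
      Function.update_eq_self (dim I - 1) (chosenV I)
    have h2 := hlist (dim I - 1) (chosen I (dim I - 1)) (hbest _).1 (hbest _).2.1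
    have h3 : greedy I (dim I) = chosen I (dim I - 1) :: greedy I (dim I - 1) := by
      conv_lhs => rw [← hn1]
      rfl
    rw [h3, h2, hC, ← Finset.prod_range_succ, hn1]

theorem key_eq (I : Inst) (M : Matrix (Fin (dim I)) (Fin (dim I)) ℝ) (c : Fin (dim I) → ℝ)
    (hn : 1 ≤ dim I) (hM : M.det ≠ 0) (hP : poly I = (fun t => c + M *ᵥ t) '' cube (dim I)) :
    0 < kDen I ∧ (kNum I : ℝ) / (kDen I : ℝ) = ((lam I : ℚ) : ℝ) / M.det ^ 2 := by
  obtain ⟨hokW, hV'⟩ := cand_props I M c hn hM hP
  obtain ⟨hbest, hmax, hfin⟩ := chosen_props I M c hn hM hP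
  have hWpos : ∀ k, (0 : ℝ) < (cW I (chosen I k) : ℝ) := fun k => by
    exact_mod_cast (hokW _ (hbest k).1 (hbest k).2).1
  have hgreedy := greedy_gram (fun k => M⁻¹ k) (by
      show (M⁻¹).det ≠ 0
      rw [Matrix.det_nonsing_inv, Ring.inverse_eq_inv']
      exact inv_ne_zero hM) (candV I) (by
      rintro v ⟨t, ht, hok, rfl⟩
      exact (hokW t ht hok).2) hV' (chosenV I) (fun k _ => ⟨_, (hbest k).1, (hbest k).2, rfl⟩) hmax
  have hden : (kDen I : ℝ) = ((lam I).den : ℝ) *
      ∏ i ∈ Finset.range (dim I), (cW I (chosen I i) : ℝ) ^ 2 := by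
    rw [kDen]
    push_cast
    congr 1
    rw [← Finset.prod_range_reflect]
    refine Finset.prod_congr rfl (fun i hi => ?_)
    rw [greedy_getD I _ _ (by have := Finset.mem_range.1 hi; omega)]
    congr 4
    have := Finset.mem_range.1 hi
    omega
  have hprod : (0 : ℝ) < ∏ i ∈ Finset.range (dim I), (cW I (chosen I i) : ℝ) ^ 2 :=
    Finset.prod_pos (fun i _ => by have := hWpos i; positivity)
  have hlden : (0 : ℝ) < ((lam I).den : ℝ) := by exact_mod_cast (lam I).den_pos
  refine ⟨?_, ?_⟩
  · have : (0 : ℝ) < (kDen I : ℝ) := by rw [hden]; positivity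
    exact_mod_cast this
  · rw [hden, kNum]
    push_cast
    rw [hfin, hgreedy]
    have h5 : (Matrix.of fun k => M⁻¹ k).det = (M.det)⁻¹ := by
      show (M⁻¹).det = _
      rw [Matrix.det_nonsing_inv, Ring.inverse_eq_inv']
    rw [h5]
    have h6 : ((lam I : ℚ) : ℝ) = ((lam I).num : ℝ) / ((lam I).den : ℝ) := by
      exact_mod_cast (Rat.cast_def (K := ℝ) (lam I))
    rw [h6]
    field_simp

/-- The yes-instances for `γ = id` in terms of the normalized threshold. -/
theorem yes_iff (I : Inst) (hI : Valid I) :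
    0 < kDen I ∧ (Yes (fun n => n) I ↔
      HasSimplex (cube (dim I)) (dim I) ((kNum I : ℝ) / (kDen I : ℝ))) := by
  obtain ⟨h1, h2, ⟨M, c, hM, hP⟩, h4⟩ := hI
  obtain ⟨k1, k2⟩ := key_eq I M c h1 hM hP
  refine ⟨k1, ?_⟩
  rw [k2, Yes, hP]
  exact hasSimplex_affMap hM c _

/-- The selector. -/
theorem selLe_spec (I J : Inst) (hI : Valid I) (hJ : Valid J) (hd : dim I = dim J) :
    (selLe (I, J) = true → Yes (fun n => n) J → Yes (fun n => n) I) ∧
      (selLe (I, J) = false → Yes (fun n => n) I → Yes (fun n => n) J) := by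
  obtain ⟨i1, i2⟩ := yes_iff I hI
  obtain ⟨j1, j2⟩ := yes_iff J hJ
  have i3 : (0 : ℝ) < (kDen I : ℝ) := by exact_mod_cast i1
  have j3 : (0 : ℝ) < (kDen J : ℝ) := by exact_mod_cast j1
  have hcmp : selLe (I, J) = true ↔ (kNum I : ℝ) / (kDen I : ℝ) ≤ (kNum J : ℝ) / (kDen J : ℝ) := by
    rw [selLe, decide_eq_true_iff, div_le_div_iff₀ i3 j3]
    exact_mod_cast Iff.rfl
  have hcube : ∀ x : ℝ, HasSimplex (cube (dim I)) (dim I) x ↔
      HasSimplex (cube (dim J)) (dim J) x := by
    intro x
    rw [hd]
  rw [i2, j2]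
  constructor
  · intro h hJ'
    rw [hcube]
    exact hJ'.mono (hcmp.1 h)
  · intro h hI'
    rw [← hcube]
    refine hI'.mono ?_
    have : ¬ (selLe (I, J) = true) := by rw [h]; simp
    exact (not_le.1 (mt hcmp.2 this)).le

end Pool.Agent.H13.LSP
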