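import Mathlib
import Pool.Agent.H13.LSP.Algo
import Pool.Agent.H7.Comp.Arith
import Pool.Agent.H99.BinDet.EncInt
import Pool.Agent.H99.BinDet.BZ
import Pool.Agent.H99.BinDet.Det
import Pool.Agent.H60.Lists

/-!
# The comparison algorithm runs in polynomial time
-/

set_option autoImplicit false

namespace Pool.Agent.H13.LSP

open Pool.Agent.H7.Comp Pool.Agent.H99.BinDet

variable {α β : Type} [Enc α] [Enc β]

lemma zadd {f g : α → ℤ} (hf : PT f) (hg : PT g) : PT (fun x => f x + g x) := PT.intAdd hf hg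
lemma zneg {f : α → ℤ} (hf : PT f) : PT (fun x => - f x) := PT.intNeg hf
lemma zmul {f g : α → ℤ} (hf : PT f) (hg : PT g) : PT (fun x => f x * g x) := PT.intMul hf hg
lemma zlt {f g : α → ℤ} (hf : PT f) (hg : PT g) : PTp (fun x => f x < g x) := PTp.intLt hf hg
lemma zle {f g : α → ℤ} (hf : PT f) (hg : PT g) : PTp (fun x => f x ≤ g x) := PTp.intLe hf hg
lemma zeq {f g : α → ℤ} (hf : PT f) (hg : PT g) : PTp (fun x => f x = g x) := PTp.intEq hf hg
lemma zsum {n : α → ℕ} {F : α → ℕ → ℤ} (hn : PT n) (hF : PT (fun p : α × ℕ => F p.1 p.2)) :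
    PT (fun x => ∑ i ∈ Finset.range (n x), F x i) := PT.intSum hn hF
lemma zprod {n : α → ℕ} {F : α → ℕ → ℤ} (hn : PT n) (hF : PT (fun p : α × ℕ => F p.1 p.2)) :
    PT (fun x => ∏ i ∈ Finset.range (n x), F x i) := PT.intProd hn hF
lemma zdet {k : α → ℕ} {A : α → ℕ → ℕ → ℤ} (hk : PT k)
    (hA : PT (fun p : α × ℕ × ℕ => A p.1 p.2.1 p.2.2)) :
    PT (fun x => (Matrix.of fun i j : Fin (k x) => A x i j).det) := PT.det hk hA
lemma qnum {f : α → ℚ} (hf : PT f) : PT (fun x => (f x).num) := Pool.Agent.H60.Lists.ratNum.comp hf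
lemma qden {f : α → ℚ} (hf : PT f) : PT (fun x => ((f x).den : ℤ)) :=
  Pool.Agent.H60.Lists.ratDen.comp hf
lemma plength {f : α → List β} (hf : PT f) : PT (fun x => (f x).length) :=
  Pool.Agent.H60.Lists.length hf

lemma pt_dim {f : α → Inst} (hf : PT f) : PT (fun x => dim (f x)) := PT.fst.comp hf

lemma pt_rows {f : α → Inst} (hf : PT f) : PT (fun x => rows (f x)) :=
  PT.fst.comp (PT.snd.comp hf)

lemma pt_lam {f : α → Inst} (hf : PT f) : PT (fun x => lam (f x)) :=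
  PT.snd.comp (PT.snd.comp hf)

lemma pt_nrows {f : α → Inst} (hf : PT f) : PT (fun x => nrows (f x)) := plength (pt_rows hf)

lemma pt_row {f : α → Inst} {r : α → ℕ} (hf : PT f) (hr : PT r) :
    PT (fun x => row (f x) (r x)) := PT.getD (pt_rows hf) hr (PT.const ([], 0))

lemma pt_co {f : α → Inst} {r j : α → ℕ} (hf : PT f) (hr : PT r) (hj : PT j) :
    PT (fun x => co (f x) (r x) (j x)) :=
  PT.getD (PT.fst.comp (pt_row hf hr)) hj (PT.const 0)

lemma pt_rhs {f : α → Inst} {r : α → ℕ} (hf : PT f) (hr : PT r) :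
    PT (fun x => rhs (f x) (r x)) := PT.snd.comp (pt_row hf hr)

lemma pt_cA {f : α → Inst} {r j : α → ℕ} (hf : PT f) (hr : PT r) (hj : PT j) :
    PT (fun x => cA (f x) (r x) (j x)) := by
  unfold cA
  refine zmul (zmul (qnum (pt_co hf hr hj)) (zprod (F := fun x l => if l = j x then 1 else
    ((co (f x) (r x) l).den : ℤ)) (pt_dim hf) ?_)) (qden (pt_rhs hf hr))
  exact PT.ite (PTp.eq PT.snd (hj.comp PT.fst)) (PT.const 1)
    (qden (pt_co (hf.comp PT.fst) (hr.comp PT.fst) PT.snd))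

lemma pt_cB {f : α → Inst} {r : α → ℕ} (hf : PT f) (hr : PT r) :
    PT (fun x => cB (f x) (r x)) := by
  unfold cB
  exact zmul (qnum (pt_rhs hf hr)) (zprod (F := fun x l => ((co (f x) (r x) l).den : ℤ))
    (pt_dim hf) (qden (pt_co (hf.comp PT.fst) (hr.comp PT.fst) PT.snd)))

lemma pt_tr {f : α → Inst} {t : α → ℕ} (hf : PT f) (ht : PT t) :
    PT (fun x => tr (f x) (t x)) := ht.div ((pt_nrows hf).mul (pt_dim hf))

lemma pt_ts {f : α → Inst} {t : α → ℕ} (hf : PT f) (ht : PT t) :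
    PT (fun x => ts (f x) (t x)) := (ht.div (pt_dim hf)).mod (pt_nrows hf)

lemma pt_tj {f : α → Inst} {t : α → ℕ} (hf : PT f) (ht : PT t) :
    PT (fun x => tj (f x) (t x)) := ht.mod (pt_dim hf)

lemma pt_ncand {f : α → Inst} (hf : PT f) : PT (fun x => ncand (f x)) :=
  (pt_nrows hf).mul ((pt_nrows hf).mul (pt_dim hf))

lemma pt_ok {f : α → Inst} {t : α → ℕ} (hf : PT f) (ht : PT t) :
    PTp (fun x => ok (f x) (t x)) := by
  unfold ok
  have hf' : PT (fun p : α × ℕ => f p.1) := hf.comp PT.fst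
  have ht' : PT (fun p : α × ℕ => t p.1) := ht.comp PT.fst
  refine (zlt (PT.const 0) (pt_cA hf (pt_tr hf ht) (pt_tj hf ht))).and
    ((zlt (pt_cA hf (pt_ts hf ht) (pt_tj hf ht)) (PT.const 0)).and ?_)
  refine PTp.ball (P := fun x l => cA (f x) (tr (f x) (t x)) (tj (f x) (t x)) *
    cA (f x) (ts (f x) (t x)) l = cA (f x) (ts (f x) (t x)) (tj (f x) (t x)) *
      cA (f x) (tr (f x) (t x)) l) (pt_dim hf) ?_
  exact zeq (zmul (pt_cA hf' (pt_tr hf' ht') (pt_tj hf' ht')) (pt_cA hf' (pt_ts hf' ht') PT.snd))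
    (zmul (pt_cA hf' (pt_ts hf' ht') (pt_tj hf' ht')) (pt_cA hf' (pt_tr hf' ht') PT.snd))

lemma pt_cu {f : α → Inst} {t l : α → ℕ} (hf : PT f) (ht : PT t) (hl : PT l) :
    PT (fun x => cu (f x) (t x) (l x)) := by
  unfold cu
  exact zmul (zneg (pt_cA hf (pt_ts hf ht) (pt_tj hf ht))) (pt_cA hf (pt_tr hf ht) hl)

lemma pt_cW {f : α → Inst} {t : α → ℕ} (hf : PT f) (ht : PT t) :
    PT (fun x => cW (f x) (t x)) := by
  unfold cW
  exact zadd (zmul (zneg (pt_cA hf (pt_ts hf ht) (pt_tj hf ht))) (pt_cB hf (pt_tr hf ht)))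
    (zmul (pt_cA hf (pt_tr hf ht) (pt_tj hf ht)) (pt_cB hf (pt_ts hf ht)))

lemma pt_cG {f : α → Inst} {L : α → List ℕ} (hf : PT f) (hL : PT L) :
    PT (fun x => cG (f x) (L x)) := by
  unfold cG
  refine zdet (A := fun x i k => ∑ l ∈ Finset.range (dim (f x)),
    cu (f x) ((L x).getD i 0) l * cu (f x) ((L x).getD k 0) l) (plength hL) ?_
  have hf' : PT (fun p : α × ℕ × ℕ => f p.1) := hf.comp PT.fst
  refine zsum (F := fun (p : α × ℕ × ℕ) l => cu (f p.1) ((L p.1).getD p.2.1 0) l *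
    cu (f p.1) ((L p.1).getD p.2.2 0) l) (pt_dim hf') ?_
  have hf2 : PT (fun p : (α × ℕ × ℕ) × ℕ => f p.1.1) := hf'.comp PT.fst
  have h1 : PT (fun p : (α × ℕ × ℕ) × ℕ => (L p.1.1).getD p.1.2.1 0) :=
    PT.getD (hL.comp (PT.fst.comp PT.fst)) (PT.fst.comp (PT.snd.comp PT.fst)) (PT.const 0)
  have h2 : PT (fun p : (α × ℕ × ℕ) × ℕ => (L p.1.1).getD p.1.2.2 0) :=
    PT.getD (hL.comp (PT.fst.comp PT.fst)) (PT.snd.comp (PT.snd.comp PT.fst)) (PT.const 0)
  exact zmul (pt_cu hf2 h1 PT.snd) (pt_cu hf2 h2 PT.snd)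

lemma best_le (I : Inst) (L : List ℕ) (i : ℕ) (hi : i ≤ ncand I) : best I L i ≤ ncand I := by
  induction i with
  | zero => exact le_rfl
  | succ i ih =>
    have := ih (by omega)
    rw [best]
    split_ifs <;> omega

lemma pt_best {f : α → Inst} {L : α → List ℕ} (hf : PT f) (hL : PT L) :
    PT (fun x => best (f x) (L x) (ncand (f x))) := by
  refine PT.iterClosed (fun x i => best (f x) (L x) i)
    (fun q : α × ℕ × ℕ => if ok (f q.1) q.2.1 then
      (if q.2.2 = ncand (f q.1) then q.2.1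
        else if cG (f q.1) (q.2.2 :: L q.1) * cW (f q.1) q.2.1 ^ 2 <
            cG (f q.1) (q.2.1 :: L q.1) * cW (f q.1) q.2.2 ^ 2 then q.2.1
          else q.2.2)
      else q.2.2) (pt_ncand hf) (pt_ncand hf) ?_ (fun x i _ => rfl)
    (fun x => 2 * ncand (f x) + 1)
    (((PB.const 2).mul (PT.value (pt_ncand hf))).add (PB.const 1)) ?_
  · have hf' : PT (fun q : α × ℕ × ℕ => f q.1) := hf.comp PT.fst
    have hL' : PT (fun q : α × ℕ × ℕ => L q.1) := hL.comp PT.fst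
    have hi : PT (fun q : α × ℕ × ℕ => q.2.1) := PT.fst.comp PT.snd
    have hb : PT (fun q : α × ℕ × ℕ => q.2.2) := PT.snd.comp PT.snd
    refine PT.ite (pt_ok hf' hi) (PT.ite (PTp.eq hb (pt_ncand hf')) hi (PT.ite ?_ hi hb)) hb
    have e1 : PT (fun q : α × ℕ × ℕ => cG (f q.1) (q.2.2 :: L q.1) * cW (f q.1) q.2.1 ^ 2) := by
      simp only [sq]
      exact zmul (pt_cG hf' (PT.cons hb hL')) (zmul (pt_cW hf' hi) (pt_cW hf' hi))
    have e2 : PT (fun q : α × ℕ × ℕ => cG (f q.1) (q.2.1 :: L q.1) * cW (f q.1) q.2.2 ^ 2) := by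
      simp only [sq]
      exact zmul (pt_cG hf' (PT.cons hi hL')) (zmul (pt_cW hf' hb) (pt_cW hf' hb))
    exact zlt e1 e2
  · intro x i hi
    rw [sz_nat]
    have := best_le (f x) (L x) i hi
    omega

lemma sz_greedy (I : Inst) (k : ℕ) : sz (greedy I k) ≤ k * (2 * ncand I + 2) + 1 := by
  induction k with
  | zero => simp [greedy, sz_nil]
  | succ k ih =>
    rw [greedy, sz_cons, sz_nat]
    have := best_le I (greedy I k) (ncand I) le_rfl
    have e : (k + 1) * (2 * ncand I + 2) = k * (2 * ncand I + 2) + (2 * ncand I + 2) := by ring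
    omega

lemma pt_greedy {f : α → Inst} (hf : PT f) : PT (fun x => greedy (f x) (dim (f x))) := by
  refine PT.iterClosed (fun x i => greedy (f x) i)
    (fun q : α × ℕ × List ℕ => best (f q.1) q.2.2 (ncand (f q.1)) :: q.2.2) (pt_dim hf)
    (PT.const []) ?_ (fun x i _ => rfl)
    (fun x => dim (f x) * (2 * ncand (f x) + 2) + 1) ?_ ?_
  · exact PT.cons (pt_best (hf.comp PT.fst) (PT.snd.comp PT.snd)) (PT.snd.comp PT.snd)
  · exact ((PT.value (pt_dim hf)).mul (((PB.const 2).mul (PT.value (pt_ncand hf))).add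
      (PB.const 2))).add (PB.const 1)
  · intro x i hi
    refine (sz_greedy (f x) i).trans ?_
    have : i * (2 * ncand (f x) + 2) ≤ dim (f x) * (2 * ncand (f x) + 2) :=
      Nat.mul_le_mul_right _ hi
    omega

lemma pt_kNum {f : α → Inst} (hf : PT f) : PT (fun x => kNum (f x)) :=
  zmul (qnum (pt_lam hf)) (pt_cG hf (pt_greedy hf))

lemma pt_kDen {f : α → Inst} (hf : PT f) : PT (fun x => kDen (f x)) := by
  unfold kDen
  refine zmul (qden (pt_lam hf)) (zprod (F := fun x i =>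
    cW (f x) ((greedy (f x) (dim (f x))).getD i 0) ^ 2) (pt_dim hf) ?_)
  have h := pt_cW (hf.comp PT.fst) (PT.getD ((pt_greedy hf).comp PT.fst) PT.snd (PT.const 0))
  exact (zmul h h).congr (fun x => by simp only [sq])

theorem pt_selLe : PT selLe :=
  (zle (zmul (pt_kNum PT.fst) (pt_kDen PT.snd)) (zmul (pt_kNum PT.snd) (pt_kDen PT.fst))).toPT

end Pool.Agent.H13.LSP
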