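import Mathlib
import Pool.Agent.H13.LSP.Geo

/-!
# Optimal simplices of the cube have 0/1 vertices
-/

set_option autoImplicit false

namespace Pool.Agent.H13.LSP

open Matrix

lemma vertex_max {ι : Type} [Fintype ι] [DecidableEq ι] (F : (ι → ℝ) → ℝ)
    (hF : ∀ x i, ∃ a b : ℝ, ∀ t, F (Function.update x i t) = (a + b * t) ^ 2) (x : ι → ℝ)
    (hx : ∀ i, 0 ≤ x i ∧ x i ≤ 1) : ∃ y : ι → ℝ, (∀ i, y i = 0 ∨ y i = 1) ∧ F x ≤ F y := by
  have key : ∀ s : Finset ι, ∃ y : ι → ℝ, (∀ i ∈ s, y i = 0 ∨ y i = 1) ∧
      (∀ i, i ∉ s → y i = x i) ∧ F x ≤ F y := by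
    intro s
    induction s using Finset.induction_on with
    | empty => exact ⟨x, by simp, fun i _ => rfl, le_rfl⟩
    | insert i s hi ih =>
      obtain ⟨y, h1, h2, h3⟩ := ih
      obtain ⟨a, b, hab⟩ := hF y i
      have hyi : y i = x i := h2 i hi
      have hy : F y = (a + b * x i) ^ 2 := by
        rw [← hab (x i), ← hyi, Function.update_eq_self]
      have hstep : ∃ t : ℝ, (t = 0 ∨ t = 1) ∧ F y ≤ F (Function.update y i t) := by
        obtain ⟨x0, x1⟩ := hx i
        by_cases hc : (a + b * x i) ^ 2 ≤ a ^ 2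
        · exact ⟨0, Or.inl rfl, by rw [hy, hab]; simpa using hc⟩
        · refine ⟨1, Or.inr rfl, ?_⟩
          rw [hy, hab]
          push Not at hc
          have h4 : 0 < b * x i * (2 * a + b * x i) := by nlinarith
          have h5 : 0 < x i := by
            rcases x0.lt_or_eq with h | h
            · exact h
            · rw [← h] at h4; simp at h4
          have h6 : 0 < b * (2 * a + b * x i) := by
            have : b * x i * (2 * a + b * x i) = x i * (b * (2 * a + b * x i)) := by ring
            rw [this] at h4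
            exact (mul_pos_iff_of_pos_left h5).1 h4
          nlinarith [mul_nonneg (sub_nonneg.2 x1) (sq_nonneg b), sq_nonneg b,
            mul_nonneg (sub_nonneg.2 x1) h6.le]
      obtain ⟨t, ht, hle⟩ := hstep
      refine ⟨Function.update y i t, ?_, ?_, h3.trans hle⟩
      · intro j hj
        by_cases hji : j = i
        · subst hji
          simpa using ht
        · rw [Function.update_of_ne hji]
          exact h1 j (Finset.mem_of_mem_insert_of_ne hj hji)
      · intro j hj
        rw [Finset.mem_insert, not_or] at hj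
        rw [Function.update_of_ne hj.1]
        exact h2 j hj.2
  obtain ⟨y, h1, _, h3⟩ := key Finset.univ
  exact ⟨y, fun i => h1 i (Finset.mem_univ i), h3⟩

/-- The points with 0/1 coordinates given by `e`. -/
def config (n : ℕ) (e : ℕ → ℕ → Bool) : Fin (n + 1) → Fin n → ℝ :=
  fun i l => if e i l = true then 1 else 0

lemma config_mem (n : ℕ) (e : ℕ → ℕ → Bool) (i : Fin (n + 1)) : config n e i ∈ cube n := by
  intro l
  unfold config
  split_ifs <;> constructor <;> norm_num

lemma measureSq_affine {n : ℕ} (z : Fin (n + 1) × Fin n → ℝ) (i : Fin (n + 1) × Fin n) :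
    ∃ a b : ℝ, ∀ t, measureSq (fun k l => Function.update z i t (k, l)) = (a + b * t) ^ 2 := by
  obtain ⟨i, l⟩ := i
  let D : (Fin (n + 1) × Fin n → ℝ) → Matrix (Fin n) (Fin n) ℝ := fun z =>
    Matrix.of fun (a : Fin n) (b : Fin n) => z (a.succ, b) - z (0, b)
  let w0 : Fin n → ℝ := fun a => D (Function.update z (i, l) 0) a l
  let v : Fin n → ℝ := fun a => (if a.succ = i then 1 else 0) - (if 0 = i then 1 else 0)
  have hD : ∀ t, D (Function.update z (i, l) t) = (D z).updateCol l (w0 + t • v) := by
    intro t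
    ext a b
    by_cases hb : b = l
    · subst hb
      rw [Matrix.updateCol_self]
      simp only [D, w0, v, Matrix.of_apply, Function.update_apply, Prod.mk.injEq, and_true,
        Pi.add_apply, Pi.smul_apply, smul_eq_mul]
      by_cases h1 : a.succ = i <;> by_cases h2 : (0 : Fin (n + 1)) = i <;> simp [h1, h2] <;> ring
    · rw [Matrix.updateCol_ne hb]
      simp only [D, Matrix.of_apply, Function.update_apply, Prod.mk.injEq, hb, and_false,
        if_false]
  refine ⟨((D z).updateCol l w0).det, ((D z).updateCol l v).det, fun t => ?_⟩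
  rw [measureSq_eq]
  have : (Matrix.of fun (a : Fin n) (b : Fin n) =>
      Function.update z (i, l) t (a.succ, b) - Function.update z (i, l) t (0, b)) =
      D (Function.update z (i, l) t) := rfl
  rw [this, hD t, Matrix.det_updateCol_add, Matrix.det_updateCol_smul]
  ring

lemma exists_config {n : ℕ} (q : Fin (n + 1) → Fin n → ℝ) (hq : ∀ i, q i ∈ cube n) :
    ∃ e : ℕ → ℕ → Bool, measureSq q ≤ measureSq (config n e) := by
  obtain ⟨y, h1, h2⟩ := vertex_max (fun z : Fin (n + 1) × Fin n → ℝ =>
    measureSq (fun k l => z (k, l))) measureSq_affine (fun z => q z.1 z.2)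
    (fun z => hq z.1 z.2)
  classical
  refine ⟨fun i l => if h : i < n + 1 ∧ l < n then decide (y (⟨i, h.1⟩, ⟨l, h.2⟩) = 1) else false,
    h2.trans_eq ?_⟩
  show measureSq (fun k l => y (k, l)) = _
  congr 1
  funext i l
  unfold config
  have : (i : ℕ) < n + 1 ∧ (l : ℕ) < n := ⟨i.2, l.2⟩
  simp only [dif_pos this]
  rcases h1 (i, l) with h | h <;> simp [h]

lemma affineIndependent_of_det {n : ℕ} (p : Fin (n + 1) → Fin n → ℝ) (h : measureSq p ≠ 0) :
    AffineIndependent ℝ p := by
  rw [measureSq_eq] at h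
  have hdet := (pow_ne_zero_iff two_ne_zero).1 h
  rw [affineIndependent_iff_linearIndependent_vsub ℝ p 0]
  have h1 : LinearIndependent ℝ (fun i : Fin n => fun l => p i.succ l - p 0 l) :=
    Matrix.linearIndependent_rows_of_det_ne_zero hdet
  have h2 : (fun i : {x : Fin (n + 1) // x ≠ 0} => (p i -ᵥ p 0 : Fin n → ℝ)) =
      (fun i : Fin n => (fun l => p i.succ l - p 0 l : Fin n → ℝ)) ∘
        (fun i : {x : Fin (n + 1) // x ≠ 0} => i.1.pred i.2) := by
    funext i
    simp only [Function.comp, Fin.succ_pred]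
    rfl
  rw [h2]
  refine h1.comp _ (fun i j hij => ?_)
  have := Fin.pred_inj.1 hij
  exact Subtype.ext this

/-- An optimal configuration of the cube. -/
def IsOpt (n : ℕ) (e : ℕ → ℕ → Bool) : Prop :=
  AffineIndependent ℝ (config n e) ∧
    ∀ q : Fin (n + 1) → Fin n → ℝ, (∀ i, q i ∈ cube n) → measureSq q ≤ measureSq (config n e)

theorem exists_opt (n : ℕ) : ∃ e, IsOpt n e := by
  classical
  -- finitely many configurations
  let ext : (Fin (n + 1) → Fin n → Bool) → (ℕ → ℕ → Bool) := fun e i l =>
    if h : i < n + 1 ∧ l < n then e ⟨i, h.1⟩ ⟨l, h.2⟩ else false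
  have hext : ∀ e : ℕ → ℕ → Bool, ∃ e', config n e = config n (ext e') := by
    intro e
    refine ⟨fun i l => e i l, ?_⟩
    funext i l
    unfold config
    have : (i : ℕ) < n + 1 ∧ (l : ℕ) < n := ⟨i.2, l.2⟩
    simp only [ext, dif_pos this]
  obtain ⟨e0, he0⟩ := Finite.exists_max (fun e => measureSq (config n (ext e)))
  have hmax : ∀ q : Fin (n + 1) → Fin n → ℝ, (∀ i, q i ∈ cube n) →
      measureSq q ≤ measureSq (config n (ext e0)) := by
    intro q hq
    obtain ⟨e, he⟩ := exists_config q hq
    obtain ⟨e', he'⟩ := hext e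
    rw [he'] at he
    exact he.trans (he0 e')
  refine ⟨ext e0, affineIndependent_of_det _ ?_, hmax⟩
  have h1 := hmax (fun i l => if (i : ℕ) = l + 1 then 1 else 0) (fun i l => by
    show 0 ≤ (if (i : ℕ) = l + 1 then (1 : ℝ) else 0) ∧ (if (i : ℕ) = l + 1 then (1 : ℝ) else 0) ≤ 1
    split_ifs <;> constructor <;> norm_num)
  have h2 : measureSq (n := n) (j := n) (fun i l => if (i : ℕ) = l + 1 then 1 else 0) = 1 := by
    rw [measureSq_eq]
    have : (Matrix.of fun (i : Fin n) (l : Fin n) =>
        (if ((i.succ : Fin (n + 1)) : ℕ) = l + 1 then (1 : ℝ) else 0) -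
          (if ((0 : Fin (n + 1)) : ℕ) = l + 1 then (1 : ℝ) else 0)) = 1 := by
      ext i l
      simp only [Matrix.of_apply, Fin.val_succ, Fin.val_zero, Matrix.one_apply]
      have h3 : ¬ (0 = (l : ℕ) + 1) := by omega
      rw [if_neg h3, sub_zero]
      by_cases h4 : i = l
      · subst h4; simp
      · have : ¬ ((i : ℕ) + 1 = l + 1) := fun h => h4 (Fin.ext (by omega))
        rw [if_neg this, if_neg h4]
    rw [this, Matrix.det_one, one_pow]
  rw [h2] at h1
  linarith

/-- Optimal configurations give largest simplices of parallelotopes. -/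
theorem isLargest_of_isOpt {n : ℕ} {M : Matrix (Fin n) (Fin n) ℝ} (hM : M.det ≠ 0)
    (c : Fin n → ℝ) (e : ℕ → ℕ → Bool) (he : IsOpt n e) :
    IsLargest ((fun t => c + M *ᵥ t) '' cube n) n (fun i => c + M *ᵥ (config n e i)) := by
  have himg : (fun t => c + M *ᵥ t) '' cube n = affMap M c '' cube n := rfl
  rw [himg]
  refine ⟨he.1.map' _ (affMap_injective hM c), ?_, ?_⟩
  · refine convexHull_min ?_ ((convex_cube n).affine_image _)
    rintro _ ⟨i, rfl⟩
    exact ⟨config n e i, config_mem n e i, rfl⟩
  · intro q _ hq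
    have hp : ∀ i, ∃ t ∈ cube n, affMap M c t = q i := fun i =>
      hq (subset_convexHull ℝ _ (Set.mem_range_self i))
    choose t ht htp using hp
    have htp' : (fun i => affMap M c (t i)) = q := funext htp
    have h2 : (fun i => c + M *ᵥ (config n e i)) = fun i => affMap M c (config n e i) := rfl
    rw [← htp', h2, measureSq_affMap, measureSq_affMap]
    exact mul_le_mul_of_nonneg_left (he.2 t ht) (sq_nonneg _)

end Pool.Agent.H13.LSP
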