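import Mathlib
import Pool.Agent.H7.Comp.Arith
import Pool.Agent.H13.LSP.Defs

/-!
# Simulation of oracle programs
-/

set_option autoImplicit false

namespace Pool.Agent.H13.LSP

open Pool.Agent.H7.Comp

/-! ### Simulation of an oracle which can be computed with advice -/

/-- translation of oracle programs: states are pairs (state, advice) -/
def trans (P : Prog) : OProg → Prog
  | .id => .id
  | .nil => .pair .nil .tl
  | .hd => .pair (.seq .hd .hd) .tl
  | .tl => .pair (.seq .hd .tl) .tl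
  | .pair p q => .pair (.pair (.seq (trans P p) .hd) (.seq (trans P q) .hd)) .tl
  | .seq p q => .seq (trans P p) (trans P q)
  | .cond c p q => .cond (.seq (trans P c) .hd) (trans P p) (trans P q)
  | .loop c p => .loop (.seq (trans P c) .hd) (trans P p)
  | .ask => .pair P .tl

lemma trans_run {Q A : Type} [Enc Q] [Enc A] (S : Q → A) (P : Prog) (w : Tr) (K B : ℕ)
    (hB : 7 ≤ B)
    (hP : ∀ q : Q, (enc q).size ≤ K → ∃ t, t + 2 ≤ B ∧ Run P (.node (enc q) w) (enc (S q)) t)
    {p : OProg} {x y : Tr} {t : ℕ} (h : ORun S p x y t) (ht : t ≤ K) :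
    ∃ t', t' ≤ t * B ∧ Run (trans P p) (.node x w) (.node y w) t' := by
  induction h with
  | id x => exact ⟨1, by omega, Run.id _⟩
  | nil x => exact ⟨1 + 1 + 1, by omega, Run.pair (Run.nil _) (Run.tl_node _ _)⟩
  | hd_nil => exact ⟨1 + 1 + 1 + 1 + 1, by omega,
      Run.pair (Run.seq (Run.hd_node _ _) Run.hd_nil) (Run.tl_node _ _)⟩
  | hd_node a b => exact ⟨1 + 1 + 1 + 1 + 1, by omega,
      Run.pair (Run.seq (Run.hd_node _ _) (Run.hd_node _ _)) (Run.tl_node _ _)⟩
  | tl_nil => exact ⟨1 + 1 + 1 + 1 + 1, by omega,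
      Run.pair (Run.seq (Run.hd_node _ _) Run.tl_nil) (Run.tl_node _ _)⟩
  | tl_node a b => exact ⟨1 + 1 + 1 + 1 + 1, by omega,
      Run.pair (Run.seq (Run.hd_node _ _) (Run.tl_node _ _)) (Run.tl_node _ _)⟩
  | @pair p q x a b s t _ _ ih1 ih2 =>
    obtain ⟨s', hs, h1⟩ := ih1 (by omega)
    obtain ⟨t', ht', h2⟩ := ih2 (by omega)
    refine ⟨(s' + 1 + 1) + (t' + 1 + 1) + 1 + 1 + 1, ?_, Run.pair (Run.pair
      (Run.seq h1 (Run.hd_node _ _)) (Run.seq h2 (Run.hd_node _ _))) (Run.tl_node _ _)⟩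
    have : (s + t + 1) * B = s * B + t * B + B := by ring
    omega
  | @seq p q x y z s t _ _ ih1 ih2 =>
    obtain ⟨s', hs, h1⟩ := ih1 (by omega)
    obtain ⟨t', ht', h2⟩ := ih2 (by omega)
    refine ⟨s' + t' + 1, ?_, Run.seq h1 h2⟩
    have : (s + t + 1) * B = s * B + t * B + B := by ring
    omega
  | @cond_true c p q x a b y s t _ _ ih1 ih2 =>
    obtain ⟨s', hs, h1⟩ := ih1 (by omega)
    obtain ⟨t', ht', h2⟩ := ih2 (by omega)
    refine ⟨(s' + 1 + 1) + t' + 1, ?_, Run.cond_true (Run.seq h1 (Run.hd_node _ _)) h2⟩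
    have : (s + t + 1) * B = s * B + t * B + B := by ring
    omega
  | @cond_false c p q x y s t _ _ ih1 ih2 =>
    obtain ⟨s', hs, h1⟩ := ih1 (by omega)
    obtain ⟨t', ht', h2⟩ := ih2 (by omega)
    refine ⟨(s' + 1 + 1) + t' + 1, ?_, Run.cond_false (Run.seq h1 (Run.hd_node _ _)) h2⟩
    have : (s + t + 1) * B = s * B + t * B + B := by ring
    omega
  | @loop_stop c p x s _ ih1 =>
    obtain ⟨s', hs, h1⟩ := ih1 (by omega)
    refine ⟨(s' + 1 + 1) + 1, ?_, Run.loop_stop (Run.seq h1 (Run.hd_node _ _))⟩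
    have : (s + 1) * B = s * B + B := by ring
    omega
  | @loop_step c p x a b y z s t u _ _ _ ih1 ih2 ih3 =>
    obtain ⟨s', hs, h1⟩ := ih1 (by omega)
    obtain ⟨t', ht', h2⟩ := ih2 (by omega)
    obtain ⟨u', hu', h3⟩ := ih3 (by omega)
    refine ⟨(s' + 1 + 1) + t' + u' + 1, ?_,
      Run.loop_step (Run.seq h1 (Run.hd_node _ _)) h2 h3⟩
    have : (s + t + u + 1) * B = s * B + t * B + u * B + B := by ring
    omega
  | ask q =>
    obtain ⟨t', ht', h1⟩ := hP q (by omega)
    refine ⟨t' + 1 + 1, ?_, Run.pair h1 (Run.tl_node _ _)⟩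
    calc t' + 1 + 1 ≤ 1 * B := by omega
      _ ≤ _ := Nat.mul_le_mul_right _ (by omega)

lemma sz_bits_le (l : List Bool) : sz l ≤ 4 * l.length + 1 := by
  induction l with
  | nil => simp [sz_nil]
  | cons b l ih =>
    rw [sz_cons, List.length_cons]
    have := sz_bool_le b
    omega

lemma PB.pow' {α : Type} [Enc α] {f : α → ℕ} (hf : PB f) (e : ℕ) : PB (fun x => f x ^ e) := by
  induction e with
  | zero => exact (PB.const 1).mono (fun x => by simp)
  | succ e ih => exact (ih.mul hf).mono (fun x => by rw [pow_succ])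

lemma nat_pb {g : ℕ → ℕ} (hg : PB g) : ∃ c, ∀ n, g n ≤ (n + 2) ^ c := by
  obtain ⟨c, hc⟩ := hg
  refine ⟨2 * c, fun n => (hc n).trans ?_⟩
  rw [pow_mul, sz_nat]
  exact Nat.pow_le_pow_left (by nlinarith) c

/-- If the oracle can be computed in polynomial time with advice strings for the bounds on the sizes of
the questions, then everything decidable in polynomial time with this oracle is in `P/poly`. -/
theorem ppoly_of_oracle {Q A : Type} [Enc Q] [Enc A] (S : Q → A) (S' : Q × List Bool → A)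
    (hS' : PT S') (adv : ℕ → List Bool) (d : ℕ) (hadv : ∀ K, (adv K).length ≤ (K + 2) ^ d)
    (h : ∀ K q, sz q ≤ K → S' (q, adv K) = S q) {L : Set (List Bool)} (hL : InPOracle S L) :
    InPpoly L := by
  obtain ⟨P, T, ⟨e, he⟩, -, hP⟩ := hS'
  obtain ⟨p, c, hp⟩ := hL
  -- bounds
  let K : ℕ → ℕ := fun n => (n + 2) ^ c
  let B : ℕ → ℕ := fun n => (K n + (4 * (K n + 2) ^ d + 1) + 1 + 2) ^ e + 7
  have hK : PB K := PB.pow' (PB.natval.add (PB.const 2)) c
  have hB : PB B := (PB.pow' (((hK.add (((PB.const 4).mul (PB.pow' (hK.add (PB.const 2)) d)).add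
    (PB.const 1))).add (PB.const 1)).add (PB.const 2)) e).add (PB.const 7)
  obtain ⟨c1, hc1⟩ := nat_pb (PB.pow' (hK.add (PB.const 2)) d)
  obtain ⟨c2, hc2⟩ := nat_pb ((hK.mul hB).add (PB.const 2))
  refine ⟨fun n => adv (K n), .seq (trans P p) .hd, max c1 c2, fun n => ?_, fun x => ?_⟩
  · exact ((hadv _).trans (hc1 n)).trans (Nat.pow_le_pow_right (by omega) (le_max_left _ _))
  · obtain ⟨b, t, ht, hrun, hb⟩ := hp x
    have hPq : ∀ q : Q, (enc q).size ≤ K x.length → ∃ t, t + 2 ≤ B x.length ∧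
        Run P (.node (enc q) (enc (adv (K x.length)))) (enc (S q)) t := by
      intro q hq
      obtain ⟨s, hs, hrun'⟩ := hP (q, adv (K x.length))
      rw [h _ q hq] at hrun'
      refine ⟨s, ?_, hrun'⟩
      have h1 : T (q, adv (K x.length)) ≤ (sz (q, adv (K x.length)) + 2) ^ e := he _
      have h2 : sz (q, adv (K x.length)) ≤
          K x.length + (4 * (K x.length + 2) ^ d + 1) + 1 := by
        rw [sz_pair]
        have h3 := sz_bits_le (adv (K x.length))
        have h4 := hadv (K x.length)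
        have h5 : sz q ≤ K x.length := hq
        omega
      have h6 : (sz (q, adv (K x.length)) + 2) ^ e ≤
          (K x.length + (4 * (K x.length + 2) ^ d + 1) + 1 + 2) ^ e :=
        Nat.pow_le_pow_left (by omega) e
      show s + 2 ≤ (K x.length + (4 * (K x.length + 2) ^ d + 1) + 1 + 2) ^ e + 7
      omega
    obtain ⟨t', ht', hrun'⟩ := trans_run S P (enc (adv (K x.length))) (K x.length) (B x.length)
      (by show 7 ≤ _ + 7; omega) hPq hrun ht
    refine ⟨b, t' + 1 + 1, ?_, Run.seq hrun' (Run.hd_node _ _), hb⟩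
    have h7 : t' ≤ K x.length * B x.length := ht'.trans (Nat.mul_le_mul_right _ ht)
    have h8 := hc2 x.length
    have h9 : (x.length + 2) ^ c2 ≤ (x.length + 2) ^ (max c1 c2) :=
      Nat.pow_le_pow_right (by omega) (le_max_right _ _)
    omega

end Pool.Agent.H13.LSP
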