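import Mathlib
import Pool.Agent.H13.LSP.Opt
import Pool.Agent.H13.LSP.Correct
import Pool.Agent.H13.LSP.Oracle
import Pool.Agent.H99.BinDet.EncInt

/-!
# The search problem: the answer computed from an optimal configuration
-/

set_option autoImplicit false

namespace Pool.Agent.H13.LSP

open Matrix Pool.Agent.H7.Comp Pool.Agent.H99.BinDet

/-! ### The answer -/

/-- lower bound of the strip of a candidate -/
def clo (I : Inst) (t : ℕ) : ℤ := -cA I (tr I t) (tj I t) * cB I (ts I t)

/-- index of the `k`-th row -/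
def gi (I : Inst) (k : ℕ) : ℕ := (greedy I (dim I)).getD (dim I - 1 - k) 0

lemma gi_eq (I : Inst) (k : ℕ) (hk : k < dim I) : gi I k = chosen I k := by
  rw [gi, greedy_getD I _ _ (by omega)]
  congr 1
  omega

/-- determinant of the matrix of the strips -/
def detU (I : Inst) : ℤ := (Matrix.of fun k j : Fin (dim I) => cu I (gi I k) j).det

/-- right-hand side -/
def rhsU (I : Inst) (e : ℕ → Bool) (k : ℕ) : ℤ :=
  clo I (gi I k) + if e k = true then cW I (gi I k) else 0

/-- numerators by Cramer's rule -/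
def numU (I : Inst) (e : ℕ → Bool) (l : ℕ) : ℤ :=
  (Matrix.of fun k j : Fin (dim I) => if (j : ℕ) = l then rhsU I e k else cu I (gi I k) j).det *
    detU I

/-- the answer -/
def ans (q : SInst) (e : ℕ → ℕ → Bool) : Ans :=
  (detU (toInst q) * detU (toInst q), (List.range (q.1 + 1)).map fun i =>
    (List.range q.1).map fun l => numU (toInst q) (e i) l)

lemma ans_congr (q : SInst) (e e' : ℕ → ℕ → Bool)
    (h : ∀ i l, i ≤ q.1 → l < q.1 → e i l = e' i l) : ans q e = ans q e' := by
  unfold ans
  congr 1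
  refine List.map_congr_left (fun i hi => ?_)
  rw [List.mem_range] at hi
  refine List.map_congr_left (fun l _ => ?_)
  unfold numU
  congr 3
  funext k j
  congr 1
  unfold rhsU
  rw [h i k (by omega) k.2]

/-! ### Strips -/

lemma strips (I : Inst) (M : Matrix (Fin (dim I)) (Fin (dim I)) ℝ) (c : Fin (dim I) → ℝ)
    (hn : 1 ≤ dim I) (hM : M.det ≠ 0) (hP : poly I = (fun t => c + M *ᵥ t) '' cube (dim I)) :
    (Matrix.of (fun k : Fin (dim I) => chosenV I k)).det ≠ 0 ∧
    (∀ k : Fin (dim I), (0 : ℝ) < cW I (chosen I k)) ∧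
    ∀ x : Fin (dim I) → ℝ, x ∈ poly I ↔ ∀ k : Fin (dim I),
      0 ≤ chosenV I k ⬝ᵥ x - (clo I (chosen I k) : ℝ) / cW I (chosen I k) ∧
      chosenV I k ⬝ᵥ x - (clo I (chosen I k) : ℝ) / cW I (chosen I k) ≤ 1 := by
  obtain ⟨hokW, hV'⟩ := cand_props I M c hn hM hP
  obtain ⟨hbest, hmax, -⟩ := chosen_props I M c hn hM hP
  have hWpos : ∀ k, (0 : ℝ) < (cW I (chosen I k) : ℝ) := fun k => by
    exact_mod_cast (hokW _ (hbest k).1 (hbest k).2).1
  have hν : (Matrix.of (fun k => M⁻¹ k)).det ≠ 0 := by
    show (M⁻¹).det ≠ 0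
    rw [Matrix.det_nonsing_inv, Ring.inverse_eq_inv']
    exact inv_ne_zero hM
  have hV : ∀ v ∈ candV I, ∃ y : Fin (dim I) → ℝ, ∑ k, |y k| ≤ 1 ∧ v = ∑ k, y k • (M⁻¹ k) := by
    rintro v ⟨t, ht, hok, rfl⟩
    exact (hokW t ht hok).2
  have hC : ∀ k, k < dim I → chosenV I k ∈ candV I :=
    fun k _ => ⟨_, (hbest k).1, (hbest k).2, rfl⟩
  obtain ⟨σ, hσ⟩ := greedy_perm (fun k => M⁻¹ k) hν (candV I) hV hV' (chosenV I) hC hmax
  have hgram := greedy_gram (fun k => M⁻¹ k) hν (candV I) hV hV' (chosenV I) hC hmax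
  refine ⟨?_, fun k => hWpos k, ?_⟩
  · intro h0
    have h1 : gramDet (dim I) (chosenV I) = (Matrix.of (fun k : Fin (dim I) => chosenV I k)).det ^ 2 := by
      have : (Matrix.of fun i j : Fin (dim I) => chosenV I i ⬝ᵥ chosenV I j) =
          (Matrix.of (fun k : Fin (dim I) => chosenV I k)) *
            (Matrix.of (fun k : Fin (dim I) => chosenV I k))ᵀ := by
        ext i j
        simp [Matrix.mul_apply, dotProduct]
      rw [gramDet, this, Matrix.det_mul, Matrix.det_transpose, sq]
    rw [h1, h0] at hgram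
    exact hν (pow_eq_zero_iff two_ne_zero |>.1 (by rw [← hgram]; norm_num))
  -- the polytope is inside the strips
  have hin : ∀ x ∈ poly I, ∀ k : Fin (dim I),
      (clo I (chosen I k) : ℝ) / cW I (chosen I k) ≤ chosenV I k ⬝ᵥ x ∧
      chosenV I k ⬝ᵥ x ≤ (clo I (chosen I k) : ℝ) / cW I (chosen I k) + 1 := by
    intro x hx k
    obtain ⟨t1, t2, t3⟩ := tr_lt I hn (hbest k).1
    obtain ⟨o1, o2, o3⟩ := (hbest k).2
    rw [poly_eq] at hx
    have hr := hx ⟨_, t1⟩
    have hs := hx ⟨_, t2⟩
    simp only at hr hs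
    have hW := hWpos k
    have o1' : (0 : ℝ) < (cA I (tr I (chosen I k)) (tj I (chosen I k)) : ℝ) := by exact_mod_cast o1
    have o2' : (cA I (ts I (chosen I k)) (tj I (chosen I k)) : ℝ) < 0 := by exact_mod_cast o2
    have hdot : chosenV I k ⬝ᵥ x * (cW I (chosen I k) : ℝ) =
        -(cA I (ts I (chosen I k)) (tj I (chosen I k)) : ℝ) *
          ((fun j : Fin (dim I) => (cA I (tr I (chosen I k)) j : ℝ)) ⬝ᵥ x) := by
      simp only [dotProduct, Finset.mul_sum, Finset.sum_mul, chosenV, cv, cu]
      refine Finset.sum_congr rfl (fun l _ => ?_)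
      push_cast
      field_simp
    have hdot2 : chosenV I k ⬝ᵥ x * (cW I (chosen I k) : ℝ) =
        -(cA I (tr I (chosen I k)) (tj I (chosen I k)) : ℝ) *
          ((fun j : Fin (dim I) => (cA I (ts I (chosen I k)) j : ℝ)) ⬝ᵥ x) := by
      rw [hdot]
      simp only [dotProduct, Finset.mul_sum]
      refine Finset.sum_congr rfl (fun l _ => ?_)
      have : (cA I (tr I (chosen I k)) (tj I (chosen I k)) : ℝ) * cA I (ts I (chosen I k)) l =
          cA I (ts I (chosen I k)) (tj I (chosen I k)) * cA I (tr I (chosen I k)) l := by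
        exact_mod_cast o3 l l.2
      linear_combination (x l) * this
    have hWd : (cW I (chosen I k) : ℝ) =
        -(cA I (ts I (chosen I k)) (tj I (chosen I k)) : ℝ) * cB I (tr I (chosen I k)) +
          cA I (tr I (chosen I k)) (tj I (chosen I k)) * cB I (ts I (chosen I k)) := by
      simp only [cW]
      push_cast
      rfl
    have hlo : (clo I (chosen I k) : ℝ) =
        -(cA I (tr I (chosen I k)) (tj I (chosen I k)) : ℝ) * cB I (ts I (chosen I k)) := by
      simp only [clo]
      push_cast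
      rfl
    constructor
    · rw [div_le_iff₀ hW, hdot2, hlo]
      have := mul_le_mul_of_nonneg_left hs o1'.le
      linarith
    · have h9 : (clo I (chosen I k) : ℝ) / cW I (chosen I k) + 1 =
          ((clo I (chosen I k) : ℝ) + cW I (chosen I k)) / cW I (chosen I k) := by
        rw [add_div, div_self hW.ne']
      rw [h9, le_div_iff₀ hW, hdot, hlo, hWd]
      have := mul_le_mul_of_nonneg_left hr (neg_nonneg.2 o2'.le)
      linarith
  -- coordinates
  have hcoord : ∀ (t : Fin (dim I) → ℝ) (k : Fin (dim I)),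
      M⁻¹ k ⬝ᵥ (c + M *ᵥ t) = M⁻¹ k ⬝ᵥ c + t k := by
    intro t k
    rw [dotProduct_add]
    congr 1
    have h1 : M⁻¹ *ᵥ (M *ᵥ t) = t := by
      rw [Matrix.mulVec_mulVec, Matrix.nonsing_inv_mul _ (isUnit_iff_ne_zero.2 hM),
        Matrix.one_mulVec]
    exact congrFun h1 k
  have hmemP : ∀ t ∈ cube (dim I), c + M *ᵥ t ∈ poly I := fun t ht => by
    rw [hP]; exact ⟨t, ht, rfl⟩
  -- position of the strips
  have hpos : ∀ (k : Fin (dim I)) (t : Fin (dim I) → ℝ),
      chosenV I k ⬝ᵥ (c + M *ᵥ t) - (clo I (chosen I k) : ℝ) / cW I (chosen I k) = t (σ k) ∨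
      chosenV I k ⬝ᵥ (c + M *ᵥ t) - (clo I (chosen I k) : ℝ) / cW I (chosen I k) =
        1 - t (σ k) := by
    intro k t
    have h0 := hin _ (hmemP 0 (fun i => by simp)) k
    have h1 := hin _ (hmemP (fun _ => 1) (fun i => by simp)) k
    rcases hσ k with h | h
    · left
      rw [h, hcoord] at h0 h1
      rw [h, hcoord]
      simp only [Pi.zero_apply] at h0
      linarith [h0.1, h0.2, h1.1, h1.2]
    · right
      rw [h, neg_dotProduct, hcoord] at h0 h1
      rw [h, neg_dotProduct, hcoord]
      simp only [Pi.zero_apply] at h0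
      linarith [h0.1, h0.2, h1.1, h1.2]
  intro x
  constructor
  · intro hx k
    have := hin x hx k
    exact ⟨by linarith [this.1], by linarith [this.2]⟩
  · intro hx
    obtain ⟨t, rfl⟩ : ∃ t, x = c + M *ᵥ t := by
      refine ⟨M⁻¹ *ᵥ (x - c), ?_⟩
      rw [Matrix.mulVec_mulVec, Matrix.mul_nonsing_inv _ (isUnit_iff_ne_zero.2 hM),
        Matrix.one_mulVec]
      abel
    refine hmemP t (fun i => ?_)
    have hi := hx (σ.symm i)
    rcases hpos (σ.symm i) t with h | h
    · rw [h, Equiv.apply_symm_apply] at hi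
      exact hi
    · rw [h, Equiv.apply_symm_apply] at hi
      constructor <;> linarith [hi.1, hi.2]

/-- The answer computed from an optimal configuration is correct. -/
theorem ans_correct (q : SInst) (hq : Valid (toInst q)) (e : ℕ → ℕ → Bool) (he : IsOpt q.1 e) :
    IsAnswer (fun n => n) q (ans q e) := by
  set I := toInst q with hI
  have hdim : dim I = q.1 := rfl
  obtain ⟨hn, -, ⟨M, c, hM, hP⟩, -⟩ := hq
  obtain ⟨hdet, hW, hmem⟩ := strips I M c hn hM hP
  -- the real matrix
  let U : Matrix (Fin (dim I)) (Fin (dim I)) ℝ := Matrix.of fun k j => (cu I (gi I k) j : ℝ)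
  have hUd : U.det = (detU I : ℝ) := by
    rw [detU, Int.cast_det]
    rfl
  have hU : U = Matrix.of fun (k j : Fin (dim I)) => (cW I (chosen I k) : ℝ) *
      (Matrix.of (fun k : Fin (dim I) => chosenV I k)) k j := by
    ext k j
    simp only [U, Matrix.of_apply, chosenV, cv]
    rw [gi_eq I k k.2]
    have := (hW k).ne'
    field_simp
  have hUne : U.det ≠ 0 := by
    rw [hU, Matrix.det_mul_column]
    exact mul_ne_zero (Finset.prod_ne_zero_iff.2 (fun k _ => (hW k).ne')) hdet
  have hUI : U * U⁻¹ = 1 := Matrix.mul_nonsing_inv _ (isUnit_iff_ne_zero.2 hUne)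
  have hIU : U⁻¹ * U = 1 := Matrix.nonsing_inv_mul _ (isUnit_iff_ne_zero.2 hUne)
  let lo : Fin (dim I) → ℝ := fun k => (clo I (chosen I k) : ℝ)
  let Wd : Matrix (Fin (dim I)) (Fin (dim I)) ℝ := Matrix.diagonal fun k => (cW I (chosen I k) : ℝ)
  let M' := U⁻¹ * Wd
  let c' := U⁻¹ *ᵥ lo
  have hM' : M'.det ≠ 0 := by
    rw [Matrix.det_mul, Matrix.det_nonsing_inv, Ring.inverse_eq_inv', Matrix.det_diagonal]
    exact mul_ne_zero (inv_ne_zero hUne) (Finset.prod_ne_zero_iff.2 (fun k _ => (hW k).ne'))
  have hUx : ∀ t : Fin (dim I) → ℝ, U *ᵥ (c' + M' *ᵥ t) = lo + Wd *ᵥ t := by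
    intro t
    rw [Matrix.mulVec_add, Matrix.mulVec_mulVec, Matrix.mulVec_mulVec, ← Matrix.mul_assoc, hUI,
      Matrix.one_mulVec, Matrix.one_mul]
  have hUrow : ∀ (x : Fin (dim I) → ℝ) k, (U *ᵥ x) k = chosenV I k ⬝ᵥ x * cW I (chosen I k) := by
    intro x k
    rw [hU]
    simp only [Matrix.mulVec, dotProduct, Matrix.of_apply, Finset.sum_mul]
    exact Finset.sum_congr rfl (fun l _ => by ring)
  have hP' : poly I = (fun t => c' + M' *ᵥ t) '' cube (dim I) := by
    ext x
    rw [hmem]
    constructor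
    · intro hx
      refine ⟨fun k => chosenV I k ⬝ᵥ x - (clo I (chosen I k) : ℝ) / cW I (chosen I k), hx, ?_⟩
      have h1 : U *ᵥ (c' + M' *ᵥ (fun k => chosenV I k ⬝ᵥ x -
          (clo I (chosen I k) : ℝ) / cW I (chosen I k))) = U *ᵥ x := by
        rw [hUx]
        funext k
        rw [hUrow, Pi.add_apply, Matrix.mulVec_diagonal]
        have := (hW k).ne'
        simp only [lo]
        field_simp
        ring
      have h2 := congrArg (fun y => U⁻¹ *ᵥ y) h1
      simpa only [Matrix.mulVec_mulVec, hIU, Matrix.one_mulVec] using h2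
    · rintro ⟨t, ht, rfl⟩ k
      have h1 := congrFun (hUx t) k
      rw [hUrow, Pi.add_apply, Matrix.mulVec_diagonal] at h1
      have h2 : chosenV I k ⬝ᵥ (c' + M' *ᵥ t) - (clo I (chosen I k) : ℝ) / cW I (chosen I k) =
          t k := by
        have := (hW k).ne'
        simp only [lo] at h1
        field_simp
        linarith
      simp only
      rw [h2]
      exact ht k
  refine ⟨?_, ?_, ?_, ?_⟩
  · have : (detU I : ℝ) ≠ 0 := by rw [← hUd]; exact hUne
    have h1 : detU I ≠ 0 := by exact_mod_cast this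
    exact mul_self_pos.2 h1
  · simp [ans]
  · intro v hv
    simp only [ans, List.mem_map] at hv
    obtain ⟨i, -, rfl⟩ := hv
    simp
  · have h := isLargest_of_isOpt hM' c' e (show IsOpt (dim I) e from he)
    rw [← hP'] at h
    have hv : (vertices (ans q e) : Fin (dim I + 1) → Fin (dim I) → ℝ) =
        fun i => c' + M' *ᵥ (config (dim I) e i) := by
      funext i
      -- Cramer
      have h1 : U *ᵥ (U.cramer (lo + Wd *ᵥ (config (dim I) e i))) =
          U *ᵥ (U.det • (c' + M' *ᵥ (config (dim I) e i))) := by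
        rw [Matrix.mulVec_cramer, Matrix.mulVec_smul, hUx]
      have h2 := congrArg (fun y => U⁻¹ *ᵥ y) h1
      simp only [Matrix.mulVec_mulVec, hIU, Matrix.one_mulVec] at h2
      funext l
      have h3 := congrFun h2 l
      rw [Matrix.cramer_apply, Pi.smul_apply, smul_eq_mul] at h3
      have hrow : (ans q e).2.getD i [] = (List.range q.1).map fun l => numU I (e i) l := by
        have : (i : ℕ) < ((ans q e).2).length := by
          simp only [ans, List.length_map, List.length_range]
          exact i.2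
        rw [List.getD_eq_getElem _ _ this]
        simp only [ans, List.getElem_map, List.getElem_range]
        rfl
      have hcell : ((ans q e).2.getD i []).getD l 0 = numU I (e i) l := by
        rw [hrow]
        have : (l : ℕ) < ((List.range q.1).map fun l => numU I (e i) l).length := by
          simp only [List.length_map, List.length_range]
          exact l.2
        rw [List.getD_eq_getElem _ _ this]
        simp only [List.getElem_map, List.getElem_range]
      have hnum : (numU I (e i) l : ℝ) = (U.updateCol l (lo + Wd *ᵥ (config (dim I) e i))).det *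
          U.det := by
        rw [numU, Int.cast_mul, hUd, Int.cast_det]
        congr 2
        ext k j
        simp only [Matrix.map_apply, Matrix.of_apply, Matrix.updateCol_apply, Pi.add_apply,
          Matrix.mulVec_diagonal, U, lo, Wd]
        by_cases hj : j = l
        · subst hj
          simp only [if_true, rhsU, config]
          rw [gi_eq I k k.2]
          push_cast
          congr 1
          split_ifs <;> simp
        · have : ¬ ((j : ℕ) = l) := fun h => hj (Fin.ext h)
          rw [if_neg this, if_neg hj]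
      show (((ans q e).2.getD i []).getD l 0 : ℝ) / (((ans q e).1 : ℤ) : ℝ) = _
      have hfst : (((ans q e).1 : ℤ) : ℝ) = U.det * U.det := by
        rw [hUd]
        simp only [ans]
        push_cast
        rfl
      rw [hcell, hfst, hnum, h3]
      field_simp
    rw [← hv] at h
    exact h

end Pool.Agent.H13.LSP
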