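import Mathlib
import Pool.Agent.H13.LSP.Search
import Pool.Agent.H13.LSP.PTAlgo

/-!
# The search problem for `γ(n) = n` is solvable in polynomial time with advice
-/

set_option autoImplicit false

namespace Pool.Agent.H13.LSP

open Matrix Pool.Agent.H7.Comp Pool.Agent.H99.BinDet

variable {α : Type} [Enc α]

/-- position of the entry `(i, l)` of the configuration for the dimension `n` -/
def pos (n i l : ℕ) : ℕ := n * n * n + (i * n + l)

lemma pos_inj {n i l n' i' l' : ℕ} (hi : i ≤ n) (hl : l < n) (hi' : i' ≤ n') (hl' : l' < n')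
    (h : pos n i l = pos n' i' l') : n = n' ∧ i = i' ∧ l = l' := by
  have key : ∀ m j k : ℕ, j ≤ m → k < m → m * m * m ≤ pos m j k ∧
      pos m j k < (m + 1) * (m + 1) * (m + 1) := by
    intro m j k hj hk
    unfold pos
    have h1 : j * m ≤ m * m := Nat.mul_le_mul_right _ hj
    constructor
    · omega
    · nlinarith
  have hn : n = n' := by
    obtain ⟨a1, a2⟩ := key n i l hi hl
    obtain ⟨b1, b2⟩ := key n' i' l' hi' hl'
    rw [h] at a1 a2
    rcases lt_trichotomy n n' with hlt | heq | hgt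
    · have h3 : (n + 1) * (n + 1) * (n + 1) ≤ n' * n' * n' :=
        Nat.mul_le_mul (Nat.mul_le_mul hlt hlt) hlt
      omega
    · exact heq
    · have h3 : (n' + 1) * (n' + 1) * (n' + 1) ≤ n * n * n :=
        Nat.mul_le_mul (Nat.mul_le_mul hgt hgt) hgt
      omega
  subst hn
  have h1 : i * n + l = i' * n + l' := by
    unfold pos at h
    omega
  have hpos : 0 < n := by omega
  have h2 : i = i' := by
    have e1 : (i * n + l) / n = i := by
      rw [mul_comm, Nat.mul_add_div hpos, Nat.div_eq_of_lt hl, add_zero]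
    have e2 : (i' * n + l') / n = i' := by
      rw [mul_comm, Nat.mul_add_div hpos, Nat.div_eq_of_lt hl', add_zero]
    rw [← e1, ← e2, h1]
  subst h2
  exact ⟨rfl, rfl, by omega⟩

/-- an optimal configuration for every dimension -/
noncomputable def optE (n : ℕ) : ℕ → ℕ → Bool := (exists_opt n).choose

lemma optE_spec (n : ℕ) : IsOpt n (optE n) := (exists_opt n).choose_spec

/-- the answers from the optimal configurations -/
noncomputable def Sopt (q : SInst) : Ans := ans q (optE q.1)

/-- the answers from an advice string -/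
def Sadv (p : SInst × List Bool) : Ans := ans p.1 (fun i l => p.2.getD (pos p.1.1 i l) false)

open Classical in
/-- the bit at position `k` -/
noncomputable def advBit (k : ℕ) : Bool :=
  decide (∃ n i l, i ≤ n ∧ l < n ∧ k = pos n i l ∧ optE n i l = true)

lemma advBit_pos {n i l : ℕ} (hi : i ≤ n) (hl : l < n) : advBit (pos n i l) = optE n i l := by
  classical
  cases hb : optE n i l with
  | true => exact decide_eq_true ⟨n, i, l, hi, hl, rfl, hb⟩
  | false =>
    refine decide_eq_false ?_
    rintro ⟨n', i', l', hi', hl', heq, h1⟩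
    obtain ⟨rfl, rfl, rfl⟩ := pos_inj hi hl hi' hl' heq
    rw [hb] at h1
    exact Bool.false_ne_true h1

/-- the advice strings -/
noncomputable def advice (K : ℕ) : List Bool :=
  (List.range ((K + 1) * (K + 1) * (K + 1))).map advBit

lemma advice_length (K : ℕ) : (advice K).length ≤ (K + 2) ^ 3 := by
  rw [advice, List.length_map, List.length_range]
  have : (K + 2) ^ 3 = (K + 2) * (K + 2) * (K + 2) := by ring
  rw [this]
  exact Nat.mul_le_mul (Nat.mul_le_mul (by omega) (by omega)) (by omega)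

lemma advice_getD (K n i l : ℕ) (hn : n ≤ K) (hi : i ≤ n) (hl : l < n) :
    (advice K).getD (pos n i l) false = optE n i l := by
  have hlt : pos n i l < (K + 1) * (K + 1) * (K + 1) := by
    have h1 : i * n ≤ n * n := Nat.mul_le_mul_right _ hi
    have h2 : (n + 1) * (n + 1) * (n + 1) ≤ (K + 1) * (K + 1) * (K + 1) :=
      Nat.mul_le_mul (Nat.mul_le_mul (by omega) (by omega)) (by omega)
    have h3 : pos n i l < (n + 1) * (n + 1) * (n + 1) := by
      unfold pos
      nlinarith
    omega
  have hlen : pos n i l < (advice K).length := by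
    rw [advice, List.length_map, List.length_range]
    exact hlt
  rw [List.getD_eq_getElem _ _ hlen, ← advBit_pos hi hl]
  simp only [advice, List.getElem_map, List.getElem_range]

lemma fst_le_sz (q : SInst) : q.1 ≤ sz q := by
  have : sz q = sz q.1 + sz q.2 + 1 := sz_pair _ _
  rw [this, sz_nat]
  omega

lemma Sadv_advice (K : ℕ) (q : SInst) (hq : sz q ≤ K) : Sadv (q, advice K) = Sopt q :=
  ans_congr q _ _ (fun i l hi hl => advice_getD K q.1 i l ((fst_le_sz q).trans hq) hi hl)

/-! ### Polynomial time -/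

lemma pt_toInst {f : α → SInst} (hf : PT f) : PT (fun x => toInst (f x)) :=
  (PT.fst.comp hf).pair ((PT.snd.comp hf).pair (PT.const 1))

lemma pt_clo {f : α → Inst} {t : α → ℕ} (hf : PT f) (ht : PT t) :
    PT (fun x => clo (f x) (t x)) :=
  zmul (zneg (pt_cA hf (pt_tr hf ht) (pt_tj hf ht))) (pt_cB hf (pt_ts hf ht))

lemma pt_gi {f : α → Inst} {k : α → ℕ} (hf : PT f) (hk : PT k) :
    PT (fun x => gi (f x) (k x)) :=
  PT.getD (pt_greedy hf) (PT.sub (PT.sub (pt_dim hf) (PT.const 1)) hk) (PT.const 0)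

lemma pt_detU {f : α → Inst} (hf : PT f) : PT (fun x => detU (f x)) := by
  refine zdet (A := fun x k j => cu (f x) (gi (f x) k) j) (pt_dim hf) ?_
  have hf' : PT (fun p : α × ℕ × ℕ => f p.1) := hf.comp PT.fst
  exact pt_cu hf' (pt_gi hf' (PT.fst.comp PT.snd)) (PT.snd.comp PT.snd)

lemma pt_ans : PT Sadv := by
  have hq : PT (fun p : SInst × List Bool => p.1) := PT.fst
  have hI : PT (fun p : SInst × List Bool => toInst p.1) := pt_toInst hq
  have hdet : PT (fun p : SInst × List Bool => detU (toInst p.1)) := pt_detU hI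
  refine PT.pair (f := fun p : SInst × List Bool => detU (toInst p.1) * detU (toInst p.1))
    (g := fun p : SInst × List Bool => (List.range (p.1.1 + 1)).map fun i =>
    (List.range p.1.1).map fun l =>
      numU (toInst p.1) ((fun i l => p.2.getD (pos p.1.1 i l) false) i) l)
    (zmul hdet hdet) ?_
  have hn : PT (fun p : SInst × List Bool => p.1.1) := PT.fst.comp PT.fst
  refine PT.mapRange (f := fun (p : SInst × List Bool) i => (List.range p.1.1).map fun l =>
    numU (toInst p.1) (fun l => p.2.getD (pos p.1.1 i l) false) l) (PT.succ.comp hn) ?_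
  refine PT.mapRange (f := fun (p : (SInst × List Bool) × ℕ) l =>
    numU (toInst p.1.1) (fun l => p.1.2.getD (pos p.1.1.1 p.2 l) false) l) (hn.comp PT.fst) ?_
  -- numU
  have hI' : PT (fun p : ((SInst × List Bool) × ℕ) × ℕ => toInst p.1.1.1) :=
    hI.comp (PT.fst.comp PT.fst)
  refine zmul ?_ (pt_detU hI')
  refine zdet (A := fun (p : ((SInst × List Bool) × ℕ) × ℕ) k j => if j = p.2 then
    rhsU (toInst p.1.1.1) (fun l => p.1.1.2.getD (pos p.1.1.1.1 p.1.2 l) false) k else
    cu (toInst p.1.1.1) (gi (toInst p.1.1.1) k) j) (pt_dim hI') ?_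
  let τ := (((SInst × List Bool) × ℕ) × ℕ) × ℕ × ℕ
  have hI2 : PT (fun p : τ => toInst p.1.1.1.1) := hI'.comp PT.fst
  have hk : PT (fun p : τ => p.2.1) := PT.fst.comp PT.snd
  have hj : PT (fun p : τ => p.2.2) := PT.snd.comp PT.snd
  have hl : PT (fun p : τ => p.1.2) := PT.snd.comp PT.fst
  have hi : PT (fun p : τ => p.1.1.2) := PT.snd.comp (PT.fst.comp PT.fst)
  have hw : PT (fun p : τ => p.1.1.1.2) := PT.snd.comp (PT.fst.comp (PT.fst.comp PT.fst))
  have hn2 : PT (fun p : τ => p.1.1.1.1.1) :=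
    PT.fst.comp (PT.fst.comp (PT.fst.comp (PT.fst.comp PT.fst)))
  have hg : PT (fun p : τ => gi (toInst p.1.1.1.1) p.2.1) := pt_gi hI2 hk
  have hpos : PT (fun p : τ => pos p.1.1.1.1.1 p.1.1.2 p.2.1) :=
    PT.add (PT.mul (PT.mul hn2 hn2) hn2) (PT.add (PT.mul hi hn2) hk)
  have hbit : PT (fun p : τ => p.1.1.1.2.getD (pos p.1.1.1.1.1 p.1.1.2 p.2.1) false) :=
    PT.getD hw hpos (PT.const false)
  refine PT.ite (PTp.eq hj hl) ?_ (pt_cu hI2 hg hj)
  exact zadd (pt_clo hI2 hg) (PT.ite (PTp.ofBool hbit) (pt_cW hI2 hg) (PT.const 0))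

lemma Sopt_solves : Solves (fun n => n) Sopt := by
  refine ⟨fun q hq => ans_correct q hq _ (optE_spec _), ?_⟩
  obtain ⟨c, hc⟩ := pt_ans.size
  -- size of the answers
  have hpb : PB (fun q : SInst => (sz q + (4 * (sz q + 2) ^ 3 + 1) + 1 + 2) ^ c) :=
    PB.pow' (((PB.self.add (((PB.const 4).mul (PB.pow' (PB.self.add (PB.const 2)) 3)).add
      (PB.const 1))).add (PB.const 1)).add (PB.const 2)) c
  obtain ⟨c', hc'⟩ := hpb
  refine ⟨c', fun q => ?_⟩
  have h1 : sz (Sadv (q, advice (sz q))) ≤ (sz (q, advice (sz q)) + 2) ^ c :=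
    hc (q, advice (sz q))
  rw [Sadv_advice _ q le_rfl, sz_pair] at h1
  have h2 := sz_bits_le (advice (sz q))
  have h3 := advice_length (sz q)
  have h4 : (sz q + sz (advice (sz q)) + 1 + 2) ^ c ≤
      (sz q + (4 * (sz q + 2) ^ 3 + 1) + 1 + 2) ^ c := Nat.pow_le_pow_left (by omega) c
  exact (h1.trans h4).trans (hc' q)

/-- Everything which can be decided in polynomial time with the oracle `Sopt` is in `P/poly`. -/
theorem ppoly_of_Sopt {L : Set (List Bool)} (h : InPOracle Sopt L) : InPpoly L :=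
  ppoly_of_oracle Sopt Sadv pt_ans advice 3 advice_length Sadv_advice h

end Pool.Agent.H13.LSP
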