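import Mathlib
import Pool.Agent.H13.LSP.SearchPT

/-!
# The decision version for `γ(n) = n` is solvable in polynomial time with advice
-/

set_option autoImplicit false

namespace Pool.Agent.H13.LSP

open Matrix Pool.Agent.H7.Comp Pool.Agent.H99.BinDet

variable {α : Type} [Enc α]

/-- determinant of a configuration -/
def detE (n : ℕ) (e : ℕ → ℕ → Bool) : ℤ :=
  (Matrix.of fun i l : Fin n => (if e (i + 1) l = true then (1 : ℤ) else 0) -
    if e 0 l = true then 1 else 0).det

lemma detE_eq (n : ℕ) (e : ℕ → ℕ → Bool) : measureSq (config n e) = ((detE n e : ℤ) : ℝ) ^ 2 := by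
  rw [measureSq_eq, detE, Int.cast_det]
  congr 2
  ext i l
  simp only [Matrix.map_apply, Matrix.of_apply, config, Fin.val_succ, Fin.val_zero]
  push_cast
  rfl

/-- decision from a configuration -/
def dec (I : Inst) (e : ℕ → ℕ → Bool) : Bool :=
  decide (kNum I ≤ detE (dim I) e * detE (dim I) e * kDen I)

lemma detE_congr (n : ℕ) (e e' : ℕ → ℕ → Bool) (h : ∀ i l, i ≤ n → l < n → e i l = e' i l) :
    detE n e = detE n e' := by
  unfold detE
  congr 2
  funext i l
  rw [h (i + 1) l (by have := i.2; omega) l.2, h 0 l (by omega) l.2]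

theorem dec_correct (I : Inst) (hI : Valid I) (e : ℕ → ℕ → Bool) (he : IsOpt (dim I) e) :
    dec I e = true ↔ Yes (fun n => n) I := by
  obtain ⟨h1, h2⟩ := yes_iff I hI
  have h1' : (0 : ℝ) < (kDen I : ℝ) := by exact_mod_cast h1
  have h3 : HasSimplex (cube (dim I)) (dim I) ((kNum I : ℝ) / (kDen I : ℝ)) ↔
      (kNum I : ℝ) / (kDen I : ℝ) ≤ measureSq (config (dim I) e) := by
    constructor
    · rintro ⟨p, -, hp, hle⟩
      exact hle.trans (he.2 p (fun i => hp (subset_convexHull ℝ _ (Set.mem_range_self i))))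
    · intro h
      exact ⟨config (dim I) e, he.1, convexHull_min
        (by rintro _ ⟨i, rfl⟩; exact config_mem _ e i) (convex_cube _), h⟩
  rw [h2, h3, detE_eq, div_le_iff₀ h1', dec, decide_eq_true_iff, sq]
  exact_mod_cast Iff.rfl

/-- the decisions from the optimal configurations -/
noncomputable def Dopt (I : Inst) : Bool := dec I (optE (dim I))

/-- the decisions from an advice string -/
def Dadv (p : Inst × List Bool) : Bool := dec p.1 (fun i l => p.2.getD (pos (dim p.1) i l) false)

lemma Dadv_advice (K : ℕ) (I : Inst) (hI : sz I ≤ K) : Dadv (I, advice K) = Dopt I := by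
  have hd : dim I ≤ K := by
    have h1 : sz I = sz I.1 + sz I.2 + 1 := sz_pair _ _
    rw [sz_nat] at h1
    have : dim I = I.1 := rfl
    omega
  have h : detE (dim I) (fun i l => (advice K).getD (pos (dim I) i l) false) =
      detE (dim I) (optE (dim I)) :=
    detE_congr _ _ _ (fun i l hi hl => advice_getD K _ i l hd hi hl)
  show dec I (fun i l => (advice K).getD (pos (dim I) i l) false) = dec I (optE (dim I))
  rw [dec, dec, h]

lemma pt_Dadv : PT Dadv := by
  have hI : PT (fun p : Inst × List Bool => p.1) := PT.fst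
  have hdet : PT (fun p : Inst × List Bool =>
      detE (dim p.1) (fun i l => p.2.getD (pos (dim p.1) i l) false)) := by
    refine zdet (A := fun (p : Inst × List Bool) i l =>
      (if p.2.getD (pos (dim p.1) (i + 1) l) false = true then (1 : ℤ) else 0) -
        if p.2.getD (pos (dim p.1) 0 l) false = true then 1 else 0) (pt_dim hI) ?_
    let τ := (Inst × List Bool) × ℕ × ℕ
    have hd : PT (fun p : τ => dim p.1.1) := pt_dim (PT.fst.comp PT.fst)
    have hi : PT (fun p : τ => p.2.1) := PT.fst.comp PT.snd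
    have hl : PT (fun p : τ => p.2.2) := PT.snd.comp PT.snd
    have hw : PT (fun p : τ => p.1.2) := PT.snd.comp PT.fst
    have hp1 : PT (fun p : τ => pos (dim p.1.1) (p.2.1 + 1) p.2.2) :=
      PT.add (PT.mul (PT.mul hd hd) hd) (PT.add (PT.mul (PT.succ.comp hi) hd) hl)
    have hp0 : PT (fun p : τ => pos (dim p.1.1) 0 p.2.2) :=
      PT.add (PT.mul (PT.mul hd hd) hd) (PT.add (PT.mul (PT.const 0) hd) hl)
    have hb1 := PT.getD hw hp1 (PT.const false)
    have hb0 := PT.getD hw hp0 (PT.const false)
    refine (zadd (PT.ite (PTp.ofBool hb1) (PT.const 1) (PT.const 0))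
      (zneg (PT.ite (PTp.ofBool hb0) (PT.const 1) (PT.const 0)))).congr (fun x => ?_)
    rw [← sub_eq_add_neg]
  exact (zle (pt_kNum hI) (zmul (zmul hdet hdet) (pt_kDen hI))).toPT

lemma Dopt_decides : Decides (fun n => n) Dopt :=
  fun I hI => dec_correct I hI _ (optE_spec _)

/-- Everything which can be decided in polynomial time with the oracle `Dopt` is in `P/poly`. -/
theorem ppoly_of_Dopt {L : Set (List Bool)} (h : InPOracle Dopt L) : InPpoly L :=
  ppoly_of_oracle Dopt Dadv pt_Dadv advice 3 advice_length Dadv_advice h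

end Pool.Agent.H13.LSP
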